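import Pool.Agent.MP_bdf372_lc.Injury

set_option autoImplicit false

open MeasureTheory
open scoped ENNReal

namespace Pool.Agent.MPbdf372

/-- the string already determines a good output -/
def Ready (e N : ℕ) (σ : List Bool) : Prop :=
  ∃ F, OkF N F ∧ ∃ t₀, ∀ t ≥ t₀, outn t e σ N = some F

/-- if many fresh strings are ready, then the requirement can act -/
theorem act_of_ready {e : ℕ} {R : List Rec} {l : ℕ} (hN : 0 < md R) (L : List (List Bool))
    (hnd : L.Nodup) (hL : ∀ σ ∈ L, σ.length = l ∧ Fresh e R σ ∧ Ready e (md R) σ)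
    (hcard : 2 ^ l ≤ 2 ^ (e + 3) * L.length) :
    ∃ a q M T₀, ∀ t ≥ T₀, t % md R = 0 → Act t e R l a q M := by
  classical
  have hch : ∀ σ : List Bool, ∃ (F : Six) (t₀ : ℕ), σ ∈ L →
      OkF (md R) F ∧ ∀ t ≥ t₀, outn t e σ (md R) = some F := by
    intro σ
    by_cases hσ : σ ∈ L
    · obtain ⟨F, hF, t₀, ht₀⟩ := (hL σ hσ).2.2
      exact ⟨F, t₀, fun _ => ⟨hF, ht₀⟩⟩
    · exact ⟨(0, 0, 0, 0, 0, 0), 0, fun h => absurd h hσ⟩
  choose F t₀ hF using hch
  obtain ⟨a, q, hq, hrot⟩ := exists_rotation L.toFinset (fun σ => diffs (md R) (F σ))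
    (fun σ hσ => (hF σ (List.mem_toFinset.1 hσ)).1.gap hN)
  let B : ℕ := 1 + ∑ σ ∈ L.toFinset, (F σ).2.2.2.2.2
  have hB : ∀ σ ∈ L, (F σ).2.2.2.2.2 < B := by
    intro σ hσ
    have := Finset.single_le_sum (f := fun σ => (F σ).2.2.2.2.2) (s := L.toFinset)
      (fun _ _ => Nat.zero_le _) (List.mem_toFinset.2 hσ)
    exact Nat.lt_of_le_of_lt this (by
      show _ < 1 + ∑ σ ∈ L.toFinset, (F σ).2.2.2.2.2
      omega)
  have hMpos : 0 < md R * q * B := by positivity
  refine ⟨a, q, md R * q * B, ∑ σ ∈ L.toFinset, t₀ σ, fun t ht hmod =>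
    ⟨⟨hmod, hq, hMpos, Nat.mul_mod_right _ _⟩, ?_⟩⟩
  have hsub : (L.toFinset.filter (fun σ => Good2 a q (diffs (md R) (F σ)))) ⊆
      (killList t e R l a q (md R * q * B)).toFinset := by
    intro σ hσ
    rw [Finset.mem_filter, List.mem_toFinset] at hσ
    obtain ⟨hσL, hg⟩ := hσ
    rw [List.mem_toFinset]
    unfold killList
    rw [List.mem_filter, mem_allStr]
    refine ⟨(hL σ hσL).1, ?_⟩
    rw [decide_eq_true_eq]
    refine ⟨(hL σ hσL).2.1, F σ, ?_, (hF σ hσL).1, hg, ?_⟩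
    · rw [Option.mem_toList]
      apply (hF σ hσL).2
      have := Finset.single_le_sum (f := t₀) (s := L.toFinset)
        (fun _ _ => Nat.zero_le _) (List.mem_toFinset.2 hσL)
      omega
    · have h1 := hB σ hσL
      have h2 : B ≤ md R * q * B := Nat.le_mul_of_pos_left B (Nat.mul_pos hN hq)
      omega
  have hle := Finset.card_le_card hsub
  have hnd2 : (killList t e R l a q (md R * q * B)).Nodup := (allStr_nodup l).filter _
  rw [List.toFinset_card_of_nodup hnd2] at hle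
  rw [List.toFinset_card_of_nodup hnd] at hrot
  calc 2 ^ l ≤ 2 ^ (e + 3) * L.length := hcard
    _ ≤ 2 ^ (e + 3) * (12 ^ 4 * _) := Nat.mul_le_mul_left _ hrot
    _ ≤ 2 ^ (e + 3) * (12 ^ 4 * (killList t e R l a q (md R * q * B)).length) := by
        gcongr
    _ = KK e * (killList t e R l a q (md R * q * B)).length := by
        unfold KK
        ring

theorem exists_len (R : List Rec) (n₀ : ℕ) :
    ∃ l, n₀ ≤ l ∧ ∀ r ∈ R, ∀ τ ∈ r.L, τ.length ≤ l := by
  induction R with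
  | nil => exact ⟨n₀, le_refl _, by simp⟩
  | cons r R ih =>
    obtain ⟨l, hl, h⟩ := ih
    have : ∃ l', ∀ τ ∈ r.L, τ.length ≤ l' := by
      induction r.L with
      | nil => exact ⟨0, by simp⟩
      | cons τ L ih2 =>
        obtain ⟨l', hl'⟩ := ih2
        refine ⟨max τ.length l', ?_⟩
        intro τ' hτ'
        rcases List.mem_cons.1 hτ' with rfl | h'
        · exact le_max_left _ _
        · exact (hl' τ' h').trans (le_max_right _ _)
    obtain ⟨l', hl'⟩ := this
    refine ⟨max l l', hl.trans (le_max_left _ _), ?_⟩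
    intro r' hr' τ hτ
    rcases List.mem_cons.1 hr' with rfl | h'
    · exact (hl' τ hτ).trans (le_max_right _ _)
    · exact (h r' h' τ hτ).trans (le_max_left _ _)

theorem lam_succ_le (e : ℕ) : lam {X | Succ e X theCol} ≤ 2⁻¹ ^ (e + 3) := by
  classical
  by_contra hcon
  push Not at hcon
  obtain ⟨s, hs⟩ := finite_acts (e + 1)
  have hno : ∀ t ≥ s, ∀ e' ≤ e, ¬ Acts (t + 1) e' (stk t) (stk (t + 1)) :=
    fun t ht e' he' => hs t ht e' (Nat.lt_succ_of_le he')
  have hR := low_const hno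
  generalize hRdef : low e (stk s) = R at hR
  have hinv : Inv R := by
    rw [← hRdef]
    exact (inv_stk s).low
  have hN : 0 < md R := hinv.md_pos
  let Bn : ℕ → Set (ℕ → Bool) := fun n₀ =>
    {X | Succ e X theCol ∧ ∀ n ≥ n₀, Ready e (md R) (pre X n)}
  have hU : {X | Succ e X theCol} = ⋃ n₀, Bn n₀ := by
    ext X
    simp only [Set.mem_ofPred_eq, Set.mem_iUnion, Bn]
    constructor
    · intro hX
      obtain ⟨n₀, h⟩ := hX.compl (md R) hN
      exact ⟨n₀, hX, h⟩
    · rintro ⟨_, h, _⟩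
      exact h
  have hdir : Directed (· ⊆ ·) Bn := by
    intro m n
    exact ⟨max m n, fun X hX => ⟨hX.1, fun k hk => hX.2 k ((le_max_left _ _).trans hk)⟩,
      fun X hX => ⟨hX.1, fun k hk => hX.2 k ((le_max_right _ _).trans hk)⟩⟩
  rw [hU, hdir.measure_iUnion, lt_iSup_iff] at hcon
  obtain ⟨n₀, hn₀⟩ := hcon
  obtain ⟨l, hl, hlen⟩ := exists_len R n₀
  let L : List (List Bool) :=
    (allStr l).filter fun σ => decide (Fresh e R σ ∧ Ready e (md R) σ)
  have hLm : ∀ σ ∈ L, σ.length = l ∧ Fresh e R σ ∧ Ready e (md R) σ := by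
    intro σ hσ
    have := List.mem_filter.1 hσ
    rw [mem_allStr, decide_eq_true_eq] at this
    exact this
  have hsub : Bn n₀ ⊆ cyls L := by
    rintro X ⟨hX, hr⟩
    refine ⟨pre X l, ?_, ?_⟩
    · rw [List.mem_filter, mem_allStr, pre_length, decide_eq_true_eq]
      refine ⟨rfl, ?_, hr l hl⟩
      intro r hrR he τ hτ heq
      rw [pre_length, pre_take, min_eq_left (hlen r hrR τ hτ), List.take_of_length_le
        (hlen r hrR τ hτ)] at heq
      exact not_killed hR hno hX ⟨r, hrR, he, τ, hτ, heq⟩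
    · rw [cyl, Set.mem_ofPred_eq, pre_length]
  have hlt : (2⁻¹ : ℝ≥0∞) ^ (e + 3) < L.length * 2⁻¹ ^ l :=
    hn₀.trans_le ((measure_mono hsub).trans (lam_cyls_le fun σ hσ => (hLm σ hσ).1))
  have hcard : 2 ^ l ≤ 2 ^ (e + 3) * L.length := by
    have h2 : ∀ k : ℕ, (2 : ℝ≥0∞) ^ k * 2⁻¹ ^ k = 1 := by
      intro k
      rw [← mul_pow, ENNReal.mul_inv_cancel (by norm_num) (by norm_num), one_pow]
    have h3 : ((2 : ℝ≥0∞) ^ l) ≤ 2 ^ (e + 3) * L.length := by
      calc (2 : ℝ≥0∞) ^ l = 2 ^ (e + 3) * (2⁻¹ ^ (e + 3)) * 2 ^ l := by rw [h2, one_mul]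
        _ ≤ 2 ^ (e + 3) * (L.length * 2⁻¹ ^ l) * 2 ^ l := by
            gcongr
        _ = 2 ^ (e + 3) * L.length * (2 ^ l * 2⁻¹ ^ l) := by ring
        _ = 2 ^ (e + 3) * L.length := by rw [h2, mul_one]
    exact_mod_cast h3
  obtain ⟨a, q, M, T₀, hact⟩ := act_of_ready hN L ((allStr_nodup l).filter _) hLm hcard
  -- a large stage at which the requirement acts
  have h1 : 1 ≤ md R := hN
  obtain ⟨t, ht⟩ : ∃ t, t + 1 = md R * (T₀ + s + e + Encodable.encode (l, a, q, M) + 2) := by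
    refine ⟨md R * (T₀ + s + e + Encodable.encode (l, a, q, M) + 2) - 1, ?_⟩
    have : 0 < md R * (T₀ + s + e + Encodable.encode (l, a, q, M) + 2) := by positivity
    omega
  have ht2 : T₀ + s + e + Encodable.encode (l, a, q, M) + 2 ≤ t + 1 := by
    rw [ht]
    exact Nat.le_mul_of_pos_left _ hN
  have hA : Act (t + 1) e (low e (stk t)) l a q M := by
    rw [hR t (by omega)]
    exact hact (t + 1) (by omega) (by rw [ht]; exact Nat.mul_mod_right _ _)
  obtain ⟨e', he', hacts⟩ := step_acts (t := t + 1) (by omega) (by omega) hA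
  exact hno t (by omega) e' he' hacts

end Pool.Agent.MPbdf372
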