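import Pool.Agent.MP_bdf372_lc.Search

set_option autoImplicit false

open MeasureTheory

namespace Pool.Agent.MPbdf372

/-- the fair coin -/
noncomputable def coin : Measure Bool := (PMF.uniformOfFintype Bool).toMeasure

instance : IsProbabilityMeasure coin := by
  unfold coin
  infer_instance

theorem coin_singleton (b : Bool) : coin {b} = 2⁻¹ := by
  unfold coin
  rw [PMF.toMeasure_apply_singleton _ _ (MeasurableSet.singleton b)]
  simp

/-- the uniform measure on Cantor space -/
noncomputable def lam : Measure (ℕ → Bool) := Measure.infinitePi (fun _ : ℕ => coin)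

instance : IsProbabilityMeasure lam := by
  unfold lam
  infer_instance

/-- the sequences that extend a string -/
def cyl (σ : List Bool) : Set (ℕ → Bool) := {X | pre X σ.length = σ}

theorem cyl_eq (σ : List Bool) :
    cyl σ = Set.pi (Finset.range σ.length) (fun i => {(σ.getD i false)}) := by
  ext X
  simp only [cyl, Set.mem_ofPred_eq, Set.mem_pi, Finset.coe_range, Set.mem_Iio,
    Set.mem_singleton_iff]
  constructor
  · intro h i hi
    have h2 : (pre X σ.length)[i]? = σ[i]? := by rw [h]
    rw [pre_getElem?, if_pos hi] at h2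
    rw [List.getD_eq_getElem?_getD, ← h2]
    rfl
  · intro h
    apply List.ext_getElem?
    intro i
    rw [pre_getElem?]
    split_ifs with hi
    · rw [h i hi, List.getD_eq_getElem?_getD, List.getElem?_eq_getElem hi]
      rfl
    · rw [List.getElem?_eq_none (by omega)]

theorem measurableSet_cyl (σ : List Bool) : MeasurableSet (cyl σ) := by
  rw [cyl_eq]
  exact MeasurableSet.pi (Finset.countable_toSet _) (fun i _ => MeasurableSet.singleton _)

theorem lam_cyl (σ : List Bool) : lam (cyl σ) = (2⁻¹) ^ σ.length := by
  rw [cyl_eq, lam, Measure.infinitePi_pi _ (fun i _ => MeasurableSet.singleton _)]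
  simp [coin_singleton]

theorem cyl_disjoint {σ τ : List Bool} (h : σ.length = τ.length) (hne : σ ≠ τ) :
    Disjoint (cyl σ) (cyl τ) := by
  rw [Set.disjoint_left]
  intro X h1 h2
  apply hne
  rw [cyl, Set.mem_ofPred_eq] at h1 h2
  rw [← h1, ← h2, h]

/-- the sequences that extend one of the strings of a list -/
def cyls (L : List (List Bool)) : Set (ℕ → Bool) := {X | ∃ σ ∈ L, X ∈ cyl σ}

theorem cyls_cons (σ : List Bool) (L : List (List Bool)) : cyls (σ :: L) = cyl σ ∪ cyls L := by
  ext X
  simp [cyls]

theorem measurableSet_cyls (L : List (List Bool)) : MeasurableSet (cyls L) := by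
  induction L with
  | nil => simp [cyls]
  | cons σ L ih =>
    rw [cyls_cons]
    exact (measurableSet_cyl σ).union ih

theorem lam_cyls {L : List (List Bool)} {l : ℕ} (hL : ∀ σ ∈ L, σ.length = l) (hn : L.Nodup) :
    lam (cyls L) = L.length * (2⁻¹) ^ l := by
  induction L with
  | nil => simp [cyls]
  | cons σ L ih =>
    rw [List.nodup_cons] at hn
    rw [cyls_cons, measure_union _ (measurableSet_cyls L), lam_cyl,
      ih (fun τ hτ => hL τ (List.mem_cons_of_mem _ hτ)) hn.2, hL σ List.mem_cons_self]
    · push_cast [List.length_cons]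
      ring
    · rw [Set.disjoint_left]
      rintro X h1 ⟨τ, hτ, h2⟩
      refine Set.disjoint_left.1 (cyl_disjoint ?_ ?_) h1 h2
      · rw [hL σ List.mem_cons_self, hL τ (List.mem_cons_of_mem _ hτ)]
      · rintro rfl
        exact hn.1 hτ

theorem lam_cyls_le {L : List (List Bool)} {l : ℕ} (hL : ∀ σ ∈ L, σ.length = l) :
    lam (cyls L) ≤ L.length * (2⁻¹) ^ l := by
  induction L with
  | nil => simp [cyls]
  | cons σ L ih =>
    rw [cyls_cons]
    refine (measure_union_le _ _).trans ?_
    rw [lam_cyl, hL σ List.mem_cons_self]
    refine (add_le_add_right (ih fun τ hτ => hL τ (List.mem_cons_of_mem _ hτ)) _).trans ?_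
    push_cast [List.length_cons]
    rw [add_mul, one_mul, add_comm]

theorem mem_allStr {n : ℕ} {σ : List Bool} : σ ∈ allStr n ↔ σ.length = n := by
  induction n generalizing σ with
  | zero => simp [allStr]
  | succ n ih =>
    simp only [allStr, List.mem_flatMap]
    constructor
    · rintro ⟨τ, hτ, h⟩
      have := ih.1 hτ
      simp only [List.mem_cons, List.not_mem_nil, or_false] at h
      rcases h with rfl | rfl <;> simp [this]
    · intro h
      cases σ with
      | nil => simp at h
      | cons b τ =>
        refine ⟨τ, ih.2 (by simpa using h), ?_⟩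
        cases b <;> simp

theorem allStr_nodup (n : ℕ) : (allStr n).Nodup := by
  induction n with
  | zero => simp [allStr]
  | succ n ih =>
    rw [allStr, List.nodup_flatMap]
    refine ⟨fun σ _ => by simp, ?_⟩
    refine ih.imp ?_
    intro σ τ hne
    simp only [Function.onFun, List.disjoint_cons_left, List.mem_cons, List.cons.injEq,
      List.not_mem_nil]
    simp [hne]

end Pool.Agent.MPbdf372
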