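import Mathlib

set_option autoImplicit false

namespace Pool.Agent.MPbdf372

/-! ### Programs with an oracle -/

/-- Programs for the partial functions that are computable with an oracle. -/
inductive OCode : Type
  | zero : OCode
  | succ : OCode
  | left : OCode
  | right : OCode
  | oracle : OCode
  | pair (a b : OCode) : OCode
  | comp (a b : OCode) : OCode
  | prec (a b : OCode) : OCode
  | rfind (a : OCode) : OCode

/-- The partial function computed by a program with oracle `O`. -/
def OCode.eval (O : ℕ →. ℕ) : OCode → ℕ →. ℕ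
  | .zero => fun _ => Part.some 0
  | .succ => fun n => Part.some (n + 1)
  | .left => fun n => Part.some n.unpair.1
  | .right => fun n => Part.some n.unpair.2
  | .oracle => O
  | .pair a b => fun n => Nat.pair <$> a.eval O n <*> b.eval O n
  | .comp a b => fun n => b.eval O n >>= a.eval O
  | .prec a b => fun p =>
    let (x, n) := Nat.unpair p
    n.rec (a.eval O x) fun y IH => do
      let i ← IH
      b.eval O (Nat.pair x (Nat.pair y i))
  | .rfind a => fun x => Nat.rfind fun n => (fun m => m = 0) <$> a.eval O (Nat.pair x n)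

/-- The effective numbering of the programs. -/
def OCode.ofNat : ℕ → OCode
  | 0 => .zero
  | 1 => .succ
  | 2 => .left
  | 3 => .right
  | 4 => .oracle
  | n + 5 =>
    have h0 : n / 4 ≤ n := Nat.div_le_self n 4
    have h1 : (n / 4).unpair.1 < n + 5 := by
      have := Nat.unpair_left_le (n / 4)
      omega
    have h2 : (n / 4).unpair.2 < n + 5 := by
      have := Nat.unpair_right_le (n / 4)
      omega
    have h3 : n / 4 < n + 5 := by omega
    match n % 4 with
    | 0 => .pair (OCode.ofNat (n / 4).unpair.1) (OCode.ofNat (n / 4).unpair.2)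
    | 1 => .comp (OCode.ofNat (n / 4).unpair.1) (OCode.ofNat (n / 4).unpair.2)
    | 2 => .prec (OCode.ofNat (n / 4).unpair.1) (OCode.ofNat (n / 4).unpair.2)
    | _ => .rfind (OCode.ofNat (n / 4))

/-- The `e`-th Turing functional `Φ_e^O`. -/
def Phi (e : ℕ) (O : ℕ →. ℕ) : ℕ →. ℕ := (OCode.ofNat e).eval O

open Classical in
/-- The characteristic function of a set of natural numbers. -/
noncomputable def chi (A : Set ℕ) : ℕ →. ℕ := fun n => Part.some (if n ∈ A then 1 else 0)

/-- The halting set `∅'`. -/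
def haltingSet : Set ℕ :=
  {n | ((Denumerable.ofNat Nat.Partrec.Code n).eval n).Dom}

/-- `f` is DNC relative to the halting set: `f(e) ≠ Φ_e^{∅'}(e)` whenever the latter is defined. -/
def DNCHalt (f : ℕ → ℕ) : Prop := ∀ e, f e ∉ Phi e (chi haltingSet) e

/-- `H` is a solution to the instance `c`: it is infinite, and `c(x + y)` takes the same value for
all `x ≠ y` in `H`. -/
def IsSolution (c : ℕ → Bool) (H : Set ℕ) : Prop :=
  H.Infinite ∧ ∃ b, ∀ x ∈ H, ∀ y ∈ H, x ≠ y → c (x + y) = b

/-! ### Sanity check: the programs compute exactly the functions recursive in the oracle -/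

theorem OCode.exists_ofNat (c : OCode) : ∃ n, OCode.ofNat n = c := by
  induction c with
  | zero => exact ⟨0, by rw [OCode.ofNat]⟩
  | succ => exact ⟨1, by rw [OCode.ofNat]⟩
  | left => exact ⟨2, by rw [OCode.ofNat]⟩
  | right => exact ⟨3, by rw [OCode.ofNat]⟩
  | oracle => exact ⟨4, by rw [OCode.ofNat]⟩
  | pair a b iha ihb =>
    obtain ⟨m, rfl⟩ := iha
    obtain ⟨n, rfl⟩ := ihb
    refine ⟨4 * Nat.pair m n + 5, ?_⟩
    have h1 : (4 * Nat.pair m n) % 4 = 0 := by omega
    have h2 : (4 * Nat.pair m n) / 4 = Nat.pair m n := by omega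
    rw [OCode.ofNat]
    simp only [h1, h2, Nat.unpair_pair]
  | comp a b iha ihb =>
    obtain ⟨m, rfl⟩ := iha
    obtain ⟨n, rfl⟩ := ihb
    refine ⟨4 * Nat.pair m n + 1 + 5, ?_⟩
    have h1 : (4 * Nat.pair m n + 1) % 4 = 1 := by omega
    have h2 : (4 * Nat.pair m n + 1) / 4 = Nat.pair m n := by omega
    rw [OCode.ofNat]
    simp only [h1, h2, Nat.unpair_pair]
  | prec a b iha ihb =>
    obtain ⟨m, rfl⟩ := iha
    obtain ⟨n, rfl⟩ := ihb
    refine ⟨4 * Nat.pair m n + 2 + 5, ?_⟩
    have h1 : (4 * Nat.pair m n + 2) % 4 = 2 := by omega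
    have h2 : (4 * Nat.pair m n + 2) / 4 = Nat.pair m n := by omega
    rw [OCode.ofNat]
    simp only [h1, h2, Nat.unpair_pair]
  | rfind a iha =>
    obtain ⟨m, rfl⟩ := iha
    refine ⟨4 * m + 3 + 5, ?_⟩
    have h1 : (4 * m + 3) % 4 = 3 := by omega
    have h2 : (4 * m + 3) / 4 = m := by omega
    rw [OCode.ofNat]
    simp only [h1, h2]

theorem exists_Phi_iff (O f : ℕ →. ℕ) : (∃ e, Phi e O = f) ↔ TuringReducible f O := by
  rw [TuringReducible, RecursiveIn.iff_nat]
  constructor
  · rintro ⟨e, rfl⟩
    unfold Phi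
    generalize OCode.ofNat e = c
    induction c with
    | zero => exact .zero
    | succ => exact .succ
    | left => exact .left
    | right => exact .right
    | oracle => exact .oracle _ rfl
    | pair a b iha ihb => exact .pair iha ihb
    | comp a b iha ihb => exact .comp iha ihb
    | prec a b iha ihb => exact .prec iha ihb
    | rfind a iha => exact .rfind iha
  · intro h
    suffices h' : ∃ c : OCode, c.eval O = f by
      obtain ⟨c, hc⟩ := h'
      obtain ⟨e, rfl⟩ := c.exists_ofNat
      exact ⟨e, hc⟩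
    induction h with
    | zero => exact ⟨.zero, rfl⟩
    | succ => exact ⟨.succ, rfl⟩
    | left => exact ⟨.left, rfl⟩
    | right => exact ⟨.right, rfl⟩
    | oracle g hg => exact ⟨.oracle, (Set.mem_singleton_iff.1 hg).symm⟩
    | pair _ _ iha ihb =>
      obtain ⟨a, rfl⟩ := iha
      obtain ⟨b, rfl⟩ := ihb
      exact ⟨.pair a b, rfl⟩
    | comp _ _ iha ihb =>
      obtain ⟨a, rfl⟩ := iha
      obtain ⟨b, rfl⟩ := ihb
      exact ⟨.comp a b, rfl⟩
    | prec _ _ iha ihb =>
      obtain ⟨a, rfl⟩ := iha
      obtain ⟨b, rfl⟩ := ihb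
      exact ⟨.prec a b, rfl⟩
    | rfind _ iha =>
      obtain ⟨a, rfl⟩ := iha
      exact ⟨.rfind a, rfl⟩

end Pool.Agent.MPbdf372
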