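import Pool.Agent.MP_bdf372_lc.Bound

set_option autoImplicit false

open MeasureTheory
open scoped ENNReal

namespace Pool.Agent.MPbdf372

/-! ### A random sequence computes a function that is DNC relative to the halting set -/

/-- the number coded by the first `n` bits -/
def num (X : ℕ → Bool) : ℕ → ℕ
  | 0 => 0
  | n + 1 => (if X n then 1 else 0) + 2 * num X n

theorem num_inj {X Y : ℕ → Bool} {n : ℕ} (h : num X n = num Y n) : pre X n = pre Y n := by
  induction n with
  | zero => rfl
  | succ n ih =>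
    have h1 : num X n = num Y n ∧ X n = Y n := by
      rw [num, num] at h
      cases hX : X n <;> cases hY : Y n <;> simp only [hX, hY, if_true] at h <;> simp at h ⊢ <;>
        omega
    unfold pre at ih ⊢
    rw [List.range_succ, List.map_append, List.map_append, ih h1.1]
    simp [h1.2]

/-- the function computed by a sequence -/
def fn (X : ℕ → Bool) (e : ℕ) : ℕ := num X (e + 3)

theorem lam_fn_le (e : ℕ) : lam {X | fn X e ∈ Phi e (chi haltingSet) e} ≤ 2⁻¹ ^ (e + 3) := by
  rcases Set.eq_empty_or_nonempty {X | fn X e ∈ Phi e (chi haltingSet) e} with h | ⟨Y, hY⟩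
  · rw [h, measure_empty]
    exact bot_le
  · have hsub : {X | fn X e ∈ Phi e (chi haltingSet) e} ⊆ cyl (pre Y (e + 3)) := by
      intro X hX
      have : fn X e = fn Y e := Part.mem_unique hX hY
      rw [cyl, Set.mem_ofPred_eq, pre_length]
      exact num_inj this
    refine (measure_mono hsub).trans ?_
    rw [lam_cyl, pre_length]

theorem tsum_eighth : ∑' e : ℕ, (2⁻¹ : ℝ≥0∞) ^ (e + 3) = 4⁻¹ := by
  simp only [pow_add]
  rw [ENNReal.tsum_mul_right, ENNReal.tsum_geometric, ENNReal.one_sub_inv_two, inv_inv]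
  have h3 : (2 : ℝ≥0∞) * 2⁻¹ ^ 3 ≠ ⊤ := ENNReal.mul_ne_top (by simp) (by simp)
  rw [← ENNReal.toReal_eq_toReal_iff' h3 (by simp)]
  simp
  norm_num

theorem exists_seq : ∃ X : ℕ → Bool, (∀ e, ¬ Succ e X theCol) ∧ DNCHalt (fn X) := by
  by_contra hcon
  push Not at hcon
  have hsub : (Set.univ : Set (ℕ → Bool)) ⊆ (⋃ e, {X | Succ e X theCol}) ∪
      ⋃ e, {X | fn X e ∈ Phi e (chi haltingSet) e} := by
    intro X _
    by_cases h : ∃ e, Succ e X theCol
    · left
      rw [Set.mem_iUnion]
      exact h
    · right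
      push Not at h
      have := hcon X h
      unfold DNCHalt at this
      push Not at this
      rw [Set.mem_iUnion]
      exact this
  have h1 : lam (Set.univ : Set (ℕ → Bool)) ≤ 4⁻¹ + 4⁻¹ := by
    refine (measure_mono hsub).trans ((measure_union_le _ _).trans (add_le_add ?_ ?_))
    · refine (measure_iUnion_le _).trans ?_
      rw [← tsum_eighth]
      exact ENNReal.tsum_le_tsum lam_succ_le
    · refine (measure_iUnion_le _).trans ?_
      rw [← tsum_eighth]
      exact ENNReal.tsum_le_tsum lam_fn_le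
  rw [measure_univ] at h1
  have h2 : (4⁻¹ : ℝ≥0∞) + 4⁻¹ < 1 := by
    rw [← ENNReal.toReal_lt_toReal (by simp) (by simp), ENNReal.toReal_add (by simp) (by simp)]
    simp
    norm_num
  exact absurd h1 (not_le.2 h2)

theorem rec_num (X : ℕ → Bool) :
    Nat.RecursiveIn {ora X} (fun p => Part.some (num X p.unpair.2)) := by
  have hprim : ∀ g : ℕ → ℕ, Primrec g → Nat.RecursiveIn {ora X} (fun n => Part.some (g n)) :=
    fun g hg => Nat.Primrec.recursiveIn (Primrec.nat_iff.1 hg)
  have hup : Primrec fun w : ℕ => w.unpair.2.unpair := Primrec.unpair.comp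
    (Primrec.snd.comp Primrec.unpair)
  have h1 := hprim (fun w => w.unpair.2.unpair.1) (Primrec.fst.comp hup)
  have h1' := hprim (fun w => w.unpair.2.unpair.2) (Primrec.snd.comp hup)
  have h2 : Nat.RecursiveIn {ora X} (ora X) := Nat.RecursiveIn.oracle _ rfl
  have h3 := (h2.comp h1).pair h1'
  have h4 := hprim (fun u => u.unpair.1 + 2 * u.unpair.2) (Primrec.nat_add.comp
    (Primrec.fst.comp Primrec.unpair) (Primrec.nat_mul.comp (Primrec.const 2)
    (Primrec.snd.comp Primrec.unpair)))
  have h5 := h4.comp h3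
  have h6 : Nat.RecursiveIn {ora X} (fun w => Part.some
      ((if X (w.unpair.2.unpair.1) then 1 else 0) + 2 * w.unpair.2.unpair.2)) := by
    refine h5.of_eq fun w => ?_
    have e1 : (Part.some (Nat.unpair (Nat.unpair w).2).1 >>= ora X) =
        Part.some (if X (w.unpair.2.unpair.1) then 1 else 0) := by
      refine (Part.bind_some _ _).trans ?_
      simp [ora, chi]
    rw [e1]
    simp [Seq.seq]
  have h0 := hprim (fun _ => 0) (Primrec.const 0)
  refine (h0.prec h6).of_eq fun p => ?_
  simp only
  generalize p.unpair.2 = n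
  induction n with
  | zero => rfl
  | succ n ih =>
    simp only at ih ⊢
    rw [ih]
    simp [num]

theorem fn_reducible (X : ℕ → Bool) :
    TuringReducible (fun n => Part.some (fn X n)) (ora X) := by
  refine RecursiveIn.iff_nat.2 ?_
  have h1 : Nat.RecursiveIn {ora X} (fun n => Part.some (Nat.pair 0 (n + 3))) :=
    Nat.Primrec.recursiveIn (Primrec.nat_iff.1 (Primrec₂.natPair.comp (Primrec.const 0)
      (Primrec.nat_add.comp Primrec.id (Primrec.const 3))))
  refine ((rec_num X).comp h1).of_eq fun n => ?_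
  simp [fn]

theorem main : ∃ A : Set ℕ,
    (∃ f : ℕ → ℕ, TuringReducible (fun n => Part.some (f n)) (chi A) ∧ DNCHalt f) ∧
    ∃ c : ℕ → Bool, Computable c ∧
      ∀ H : Set ℕ, TuringReducible (chi H) (chi A) → ¬ IsSolution c H := by
  obtain ⟨X, h1, h2⟩ := exists_seq
  refine ⟨{n | X n = true}, ⟨fn X, fn_reducible X, h2⟩, theCol, computable_theCol, ?_⟩
  intro H hH hsol
  obtain ⟨e, he⟩ := exists_succ (X := X) hsol hH
  exact h1 e he

end Pool.Agent.MPbdf372
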