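import Pool.Agent.MP_bdf372_lc.Stage
import Pool.Agent.MP_bdf372_lc.Defs

set_option autoImplicit false

open Nat.Partrec (Code)

namespace Pool.Agent.MPbdf372

/-- the initial segment of length `n` -/
def pre (X : ℕ → Bool) (n : ℕ) : List Bool := (List.range n).map X

theorem pre_length (X : ℕ → Bool) (n : ℕ) : (pre X n).length = n := by simp [pre]

theorem pre_getElem? (X : ℕ → Bool) (n k : ℕ) :
    (pre X n)[k]? = if k < n then some (X k) else none := by
  unfold pre
  rw [List.getElem?_map]
  split_ifs with h
  · rw [List.getElem?_range h]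
    rfl
  · rw [List.getElem?_eq_none (by simpa using h)]
    rfl

/-- the oracle given by `X` -/
noncomputable def ora (X : ℕ → Bool) : ℕ →. ℕ := chi {n | X n = true}

/-- `A` approximates `f` along the initial segments of `X` -/
structure Appr (X : ℕ → Bool) (f : ℕ →. ℕ) (A : List Bool → ℕ → Option ℕ) : Prop where
  comp : Computable₂ A
  mono : ∀ m n k y, m ≤ n → A (pre X m) k = some y → A (pre X n) k = some y
  spec : ∀ k y, y ∈ f k ↔ ∃ n, A (pre X n) k = some y

variable {X : ℕ → Bool}

theorem appr_total {f : ℕ → ℕ} (hf : Computable f) :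
    ∃ A, Appr X (fun n => Part.some (f n)) A :=
  ⟨fun _ k => some (f k),
    { comp := (Computable.option_some.comp (hf.comp Computable.snd)).to₂
      mono := fun _ _ _ _ _ h => h
      spec := fun k y => by
        rw [Part.mem_some_iff]
        constructor
        · rintro rfl
          exact ⟨0, rfl⟩
        · rintro ⟨_, h⟩
          exact (Option.some.inj h).symm }⟩

theorem appr_oracle : ∃ A, Appr X (ora X) A := by
  refine ⟨fun σ k => (σ[k]?).map fun b => if b then 1 else 0, ?_, ?_, ?_⟩
  · refine Computable.option_map (Primrec.list_getElem?.comp Primrec.fst Primrec.snd).to_comp ?_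
    exact ((Primrec.dom_bool fun b => if b then 1 else 0).comp Primrec.snd).to_comp
  · intro m n k y hmn h
    simp only [pre_getElem?] at h ⊢
    by_cases hk : k < m
    · rw [if_pos (lt_of_lt_of_le hk hmn)]
      rwa [if_pos hk] at h
    · rw [if_neg hk] at h
      simp at h
  · intro k y
    unfold ora chi
    rw [Part.mem_some_iff]
    simp only [pre_getElem?]
    constructor
    · rintro rfl
      refine ⟨k + 1, ?_⟩
      rw [if_pos (Nat.lt_succ_self k)]
      by_cases hX : X k = true
      · simp [hX]
      · simp [hX]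
    · rintro ⟨n, h⟩
      by_cases hk : k < n
      · rw [if_pos hk] at h
        by_cases hX : X k = true
        · simp [hX] at h
          simp [hX, h]
        · simp [hX] at h
          simp [hX, h]
      · rw [if_neg hk] at h
        simp at h

theorem appr_pair {f g : ℕ →. ℕ} (hf : ∃ A, Appr X f A) (hg : ∃ A, Appr X g A) :
    ∃ A, Appr X (fun n => Nat.pair <$> f n <*> g n) A := by
  obtain ⟨A, hA⟩ := hf
  obtain ⟨B, hB⟩ := hg
  refine ⟨fun σ k => (A σ k).bind fun a => (B σ k).map fun b => Nat.pair a b, ?_, ?_, ?_⟩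
  · refine Computable.option_bind hA.comp ?_
    refine Computable.option_map (hB.comp.comp (Computable.fst.comp Computable.fst)
      (Computable.snd.comp Computable.fst)) ?_
    exact Primrec₂.natPair.to_comp.comp (Computable.snd.comp Computable.fst) Computable.snd
  · intro m n k y hmn h
    simp only [Option.bind_eq_some_iff, Option.map_eq_some_iff] at h ⊢
    obtain ⟨a, ha, b, hb, e⟩ := h
    exact ⟨a, hA.mono _ _ _ _ hmn ha, b, hB.mono _ _ _ _ hmn hb, e⟩
  · intro k y
    simp only [Option.bind_eq_some_iff, Option.map_eq_some_iff]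
    have h1 : y ∈ Nat.pair <$> f k <*> g k ↔ ∃ a ∈ f k, ∃ b ∈ g k, Nat.pair a b = y := by
      simp [Seq.seq]
    rw [h1]
    constructor
    · rintro ⟨a, ha, b, hb, e⟩
      obtain ⟨m, hm⟩ := (hA.spec _ _).1 ha
      obtain ⟨n, hn⟩ := (hB.spec _ _).1 hb
      exact ⟨max m n, a, hA.mono _ _ _ _ (le_max_left _ _) hm, b,
        hB.mono _ _ _ _ (le_max_right _ _) hn, e⟩
    · rintro ⟨n, a, ha, b, hb, e⟩
      exact ⟨a, (hA.spec _ _).2 ⟨n, ha⟩, b, (hB.spec _ _).2 ⟨n, hb⟩, e⟩

theorem appr_comp {f g : ℕ →. ℕ} (hf : ∃ A, Appr X f A) (hg : ∃ A, Appr X g A) :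
    ∃ A, Appr X (fun n => g n >>= f) A := by
  obtain ⟨A, hA⟩ := hf
  obtain ⟨B, hB⟩ := hg
  refine ⟨fun σ k => (B σ k).bind fun b => A σ b, ?_, ?_, ?_⟩
  · refine Computable.option_bind hB.comp ?_
    exact hA.comp.comp (Computable.fst.comp Computable.fst) Computable.snd
  · intro m n k y hmn h
    simp only [Option.bind_eq_some_iff] at h ⊢
    obtain ⟨a, ha, hb⟩ := h
    exact ⟨a, hB.mono _ _ _ _ hmn ha, hA.mono _ _ _ _ hmn hb⟩
  · intro k y
    simp only [Option.bind_eq_some_iff]
    have h1 : y ∈ (g k).bind f ↔ ∃ b ∈ g k, y ∈ f b := Part.mem_bind_iff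
    show y ∈ (g k).bind f ↔ _
    rw [h1]
    constructor
    · rintro ⟨b, hb, hy⟩
      obtain ⟨m, hm⟩ := (hB.spec _ _).1 hb
      obtain ⟨n, hn⟩ := (hA.spec _ _).1 hy
      exact ⟨max m n, b, hB.mono _ _ _ _ (le_max_left _ _) hm,
        hA.mono _ _ _ _ (le_max_right _ _) hn⟩
    · rintro ⟨n, b, hb, hy⟩
      exact ⟨b, (hB.spec _ _).2 ⟨n, hb⟩, (hA.spec _ _).2 ⟨n, hy⟩⟩

/-- approximation of a primitive recursion -/
def precA (A B : List Bool → ℕ → Option ℕ) (σ : List Bool) (x : ℕ) : ℕ → Option ℕ
  | 0 => A σ x
  | n + 1 => (precA A B σ x n).bind fun i => B σ (Nat.pair x (Nat.pair n i))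

theorem appr_prec {f g : ℕ →. ℕ} (hf : ∃ A, Appr X f A) (hg : ∃ A, Appr X g A) :
    ∃ A, Appr X (fun p => let (a, n) := Nat.unpair p
        n.rec (f a) fun y IH => do
          let i ← IH
          g (Nat.pair a (Nat.pair y i))) A := by
  obtain ⟨A, hA⟩ := hf
  obtain ⟨B, hB⟩ := hg
  have hmono : ∀ m n x k y, m ≤ n → precA A B (pre X m) x k = some y →
      precA A B (pre X n) x k = some y := by
    intro m n x k
    induction k with
    | zero =>
      intro y hmn h
      exact hA.mono _ _ _ _ hmn h
    | succ k ih =>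
      intro y hmn h
      simp only [precA, Option.bind_eq_some_iff] at h ⊢
      obtain ⟨i, hi, hy⟩ := h
      exact ⟨i, ih i hmn hi, hB.mono _ _ _ _ hmn hy⟩
  have hcomp : Computable₂ fun (z : List Bool × ℕ) (k : ℕ) => precA A B z.1 z.2 k := by
    have hF : Computable₂ fun (z : (List Bool × ℕ) × ℕ) (w : ℕ × Option ℕ) =>
        w.2.bind fun i => B z.1.1 (Nat.pair z.1.2 (Nat.pair w.1 i)) := by
      refine Computable.option_bind (Computable.snd.comp Computable.snd) ?_
      have z1 : Computable fun w : (((List Bool × ℕ) × ℕ) × ℕ × Option ℕ) × ℕ => w.1.1.1.1 :=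
        Computable.fst.comp (Computable.fst.comp (Computable.fst.comp Computable.fst))
      have z2 : Computable fun w : (((List Bool × ℕ) × ℕ) × ℕ × Option ℕ) × ℕ => w.1.1.1.2 :=
        Computable.snd.comp (Computable.fst.comp (Computable.fst.comp Computable.fst))
      have n : Computable fun w : (((List Bool × ℕ) × ℕ) × ℕ × Option ℕ) × ℕ => w.1.2.1 :=
        Computable.fst.comp (Computable.snd.comp Computable.fst)
      exact hB.comp.comp z1
        (Primrec₂.natPair.to_comp.comp z2 (Primrec₂.natPair.to_comp.comp n Computable.snd))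
    have h := Computable.nat_rec (f := fun z : (List Bool × ℕ) × ℕ => z.2)
      (g := fun z => A z.1.1 z.1.2) Computable.snd
      (hA.comp.comp (Computable.fst.comp Computable.fst) (Computable.snd.comp Computable.fst)) hF
    refine h.of_eq fun z => ?_
    obtain ⟨z, k⟩ := z
    simp only
    induction k with
    | zero => rfl
    | succ n ih =>
      simp only [precA, ← ih]
  refine ⟨fun σ p => precA A B σ p.unpair.1 p.unpair.2, ?_, ?_, ?_⟩
  · exact hcomp.comp (Computable.pair Computable.fst (Computable.fst.comp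
      (Computable.unpair.comp Computable.snd))) (Computable.snd.comp
      (Computable.unpair.comp Computable.snd))
  · intro m n k y hmn h
    exact hmono _ _ _ _ _ hmn h
  · intro p y
    simp only
    generalize p.unpair.1 = x
    generalize p.unpair.2 = k
    induction k generalizing y with
    | zero => exact hA.spec _ _
    | succ k ih =>
      have h1 : ∀ (q : Part ℕ) (g : ℕ → Part ℕ), (y ∈ q.bind g ↔ ∃ b ∈ q, y ∈ g b) :=
        fun q g => Part.mem_bind_iff
      refine (h1 _ _).trans ?_
      simp only [precA, Option.bind_eq_some_iff]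
      constructor
      · rintro ⟨i, hi, hy⟩
        obtain ⟨m, hm⟩ := (ih i).1 hi
        obtain ⟨n, hn⟩ := (hB.spec _ _).1 hy
        exact ⟨max m n, i, hmono _ _ _ _ _ (le_max_left _ _) hm,
          hB.mono _ _ _ _ (le_max_right _ _) hn⟩
      · rintro ⟨n, i, hi, hy⟩
        exact ⟨i, (ih i).2 ⟨n, hi⟩, (hB.spec _ _).2 ⟨n, hy⟩⟩

/-- one step of a search -/
def updA (k : ℕ) (o : Option ℕ) (s : ℕ) : ℕ :=
  match s with
  | 0 => (match o with
    | none => 1
    | some 0 => k + 2
    | some (_ + 1) => 0)
  | r + 1 => r + 1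

theorem pr_updA : Primrec fun z : ℕ × Option ℕ × ℕ => updA z.1 z.2.1 z.2.2 := by
  have h0 : Primrec fun z : ℕ × Option ℕ × ℕ => z.2.2 := Primrec.snd.comp Primrec.snd
  have h1 : Primrec fun z : ℕ × Option ℕ × ℕ => z.2.1 := Primrec.fst.comp Primrec.snd
  have h2 : Primrec fun w : (ℕ × Option ℕ × ℕ) × ℕ => w.1.1 + 2 :=
    Primrec.nat_add.comp (Primrec.fst.comp Primrec.fst) (Primrec.const 2)
  have h3 : Primrec fun z : ℕ × Option ℕ × ℕ =>
      (Option.casesOn z.2.1 1 (fun y => Nat.casesOn y (z.1 + 2) fun _ => 0) : ℕ) := by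
    refine Primrec.option_casesOn h1 (Primrec.const 1) ?_
    exact Primrec.nat_casesOn Primrec.snd h2 (Primrec.const 0).to₂
  have h4 := Primrec.nat_casesOn h0 h3 (Primrec.succ.comp Primrec.snd).to₂
  refine h4.of_eq fun z => ?_
  obtain ⟨k, o, s⟩ := z
  cases s with
  | zero =>
    cases o with
    | none => rfl
    | some y =>
      cases y with
      | zero => rfl
      | succ y => rfl
  | succ r => rfl

/-- approximation of a search: `0` searching, `1` undefined, `n + 2` found `n` -/
def srchA (A : List Bool → ℕ → Option ℕ) (σ : List Bool) (x : ℕ) : ℕ → ℕ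
  | 0 => 0
  | k + 1 => updA k (A σ (Nat.pair x k)) (srchA A σ x k)

theorem srchA_zero {A : List Bool → ℕ → Option ℕ} {σ : List Bool} {x k : ℕ} :
    srchA A σ x k = 0 ↔ ∀ m < k, ∃ y, A σ (Nat.pair x m) = some (y + 1) := by
  induction k with
  | zero => simp [srchA]
  | succ k ih =>
    rw [srchA]
    cases hs : srchA A σ x k with
    | zero =>
      have h0 := ih.1 hs
      cases hA : A σ (Nat.pair x k) with
      | none =>
        simp only [updA]
        constructor
        · intro h
          omega
        · intro h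
          obtain ⟨y, hy⟩ := h k (Nat.lt_succ_self k)
          rw [hA] at hy
          simp at hy
      | some y =>
        cases y with
        | zero =>
          simp only [updA]
          constructor
          · intro h
            omega
          · intro h
            obtain ⟨y, hy⟩ := h k (Nat.lt_succ_self k)
            rw [hA] at hy
            simp at hy
        | succ y =>
          simp only [updA, true_iff]
          intro m hm
          rcases Nat.lt_succ_iff_lt_or_eq.1 hm with h | rfl
          · exact h0 m h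
          · exact ⟨y, hA⟩
    | succ r =>
      simp only [updA]
      constructor
      · intro h
        omega
      · intro h
        have := ih.2 (fun m hm => h m (Nat.lt_succ_of_lt hm))
        omega

theorem srchA_found {A : List Bool → ℕ → Option ℕ} {σ : List Bool} {x k n : ℕ} :
    srchA A σ x k = n + 2 ↔ n < k ∧ A σ (Nat.pair x n) = some 0 ∧
      ∀ m < n, ∃ y, A σ (Nat.pair x m) = some (y + 1) := by
  induction k with
  | zero => simp [srchA]
  | succ k ih =>
    rw [srchA]
    cases hs : srchA A σ x k with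
    | zero =>
      have h0 := srchA_zero.1 hs
      have hno : ¬ (n < k ∧ A σ (Nat.pair x n) = some 0 ∧
          ∀ m < n, ∃ y, A σ (Nat.pair x m) = some (y + 1)) := by
        intro h
        have := ih.2 h
        omega
      cases hA : A σ (Nat.pair x k) with
      | none =>
        simp only [updA]
        constructor
        · intro h
          omega
        · rintro ⟨h1, h2, h3⟩
          rcases Nat.lt_succ_iff_lt_or_eq.1 h1 with h | rfl
          · exact absurd ⟨h, h2, h3⟩ hno
          · rw [hA] at h2
            simp at h2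
      | some y =>
        cases y with
        | zero =>
          simp only [updA]
          constructor
          · intro h
            have : n = k := by omega
            subst this
            exact ⟨Nat.lt_succ_self _, hA, h0⟩
          · rintro ⟨h1, h2, h3⟩
            rcases Nat.lt_succ_iff_lt_or_eq.1 h1 with h | rfl
            · exact absurd ⟨h, h2, h3⟩ hno
            · rfl
        | succ y =>
          simp only [updA]
          constructor
          · intro h
            omega
          · rintro ⟨h1, h2, h3⟩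
            rcases Nat.lt_succ_iff_lt_or_eq.1 h1 with h | rfl
            · exact absurd ⟨h, h2, h3⟩ hno
            · rw [hA] at h2
              simp at h2
    | succ r =>
      simp only [updA]
      constructor
      · intro h
        have hr : srchA A σ x k = n + 2 := by omega
        obtain ⟨h1, h2, h3⟩ := ih.1 hr
        exact ⟨Nat.lt_succ_of_lt h1, h2, h3⟩
      · rintro ⟨h1, h2, h3⟩
        rcases Nat.lt_succ_iff_lt_or_eq.1 h1 with h | rfl
        · have := ih.2 ⟨h, h2, h3⟩
          omega
        · have := srchA_zero.2 h3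
          omega

attribute [local irreducible] updA in
theorem comp_srchA {A : List Bool → ℕ → Option ℕ} (hA : Computable₂ A) :
    Computable₂ fun (z : List Bool × ℕ) (k : ℕ) => srchA A z.1 z.2 k := by
  have hF : Computable₂ fun (z : (List Bool × ℕ) × ℕ) (w : ℕ × ℕ) =>
      updA w.1 (A z.1.1 (Nat.pair z.1.2 w.1)) w.2 := by
    have z1 : Computable fun w : ((List Bool × ℕ) × ℕ) × ℕ × ℕ => w.1.1.1 :=
      Computable.fst.comp (Computable.fst.comp Computable.fst)
    have z2 : Computable fun w : ((List Bool × ℕ) × ℕ) × ℕ × ℕ => w.1.1.2 :=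
      Computable.snd.comp (Computable.fst.comp Computable.fst)
    have k : Computable fun w : ((List Bool × ℕ) × ℕ) × ℕ × ℕ => w.2.1 :=
      Computable.fst.comp Computable.snd
    have s : Computable fun w : ((List Bool × ℕ) × ℕ) × ℕ × ℕ => w.2.2 :=
      Computable.snd.comp Computable.snd
    have hp : Computable fun w : ((List Bool × ℕ) × ℕ) × ℕ × ℕ => Nat.pair w.1.1.2 w.2.1 :=
      Primrec₂.natPair.to_comp.comp z2 k
    have hq : Computable fun w : ((List Bool × ℕ) × ℕ) × ℕ × ℕ =>
        A w.1.1.1 (Nat.pair w.1.1.2 w.2.1) := hA.comp z1 hp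
    have hr : Computable fun w : ((List Bool × ℕ) × ℕ) × ℕ × ℕ =>
        (w.2.1, A w.1.1.1 (Nat.pair w.1.1.2 w.2.1), w.2.2) := k.pair (hq.pair s)
    have hu : Computable fun w : ((List Bool × ℕ) × ℕ) × ℕ × ℕ =>
        updA w.2.1 (A w.1.1.1 (Nat.pair w.1.1.2 w.2.1)) w.2.2 :=
      (Computable.comp pr_updA.to_comp hr).of_eq fun _ => rfl
    exact hu.to₂
  have h := Computable.nat_rec (f := fun z : (List Bool × ℕ) × ℕ => z.2)
    (g := fun _ => 0) Computable.snd (Computable.const 0) hF
  refine h.of_eq fun z => ?_
  obtain ⟨z, k⟩ := z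
  simp only
  induction k with
  | zero => rfl
  | succ n ih => rw [srchA, ← ih]

/-- result of a search -/
def finA (s : ℕ) : Option ℕ :=
  match s with
  | 0 => none
  | 1 => none
  | n + 2 => some n

theorem pr_finA : Primrec finA := by
  have h : Primrec fun s : ℕ =>
      (Nat.casesOn s none (fun r => Nat.casesOn r none some) : Option ℕ) := by
    refine Primrec.nat_casesOn Primrec.id (Primrec.const none) ?_
    exact Primrec.nat_casesOn Primrec.snd (Primrec.const none)
      (Primrec.option_some.comp Primrec.snd).to₂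
  refine h.of_eq fun s => ?_
  cases s with
  | zero => rfl
  | succ s =>
    cases s with
    | zero => rfl
    | succ s => rfl

theorem finA_eq {s n : ℕ} : finA s = some n ↔ s = n + 2 := by
  cases s with
  | zero => simp [finA]
  | succ s =>
    cases s with
    | zero => simp [finA]
    | succ s => simp [finA]

theorem appr_rfind {f : ℕ →. ℕ} (hf : ∃ A, Appr X f A) :
    ∃ A, Appr X (fun a => Nat.rfind fun n => (fun m => m = 0) <$> f (Nat.pair a n)) A := by
  obtain ⟨A, hA⟩ := hf
  refine ⟨fun σ x => finA (srchA A σ x σ.length), ?_, ?_, ?_⟩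
  · exact pr_finA.to_comp.comp ((comp_srchA hA.comp).comp (Computable.pair Computable.fst
      Computable.snd) (Computable.list_length.comp Computable.fst))
  · intro m n x y hmn h
    rw [finA_eq, srchA_found, pre_length] at h ⊢
    obtain ⟨h1, h2, h3⟩ := h
    refine ⟨lt_of_lt_of_le h1 hmn, hA.mono _ _ _ _ hmn h2, fun i hi => ?_⟩
    obtain ⟨z, hz⟩ := h3 i hi
    exact ⟨z, hA.mono _ _ _ _ hmn hz⟩
  · intro x n
    simp only [finA_eq, srchA_found, pre_length]
    have e1 : ∀ m, (true ∈ Part.map (fun m => decide (m = 0)) (f (Nat.pair x m))) ↔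
        0 ∈ f (Nat.pair x m) := by
      intro m
      simp
    have e2 : ∀ m, (false ∈ Part.map (fun m => decide (m = 0)) (f (Nat.pair x m))) ↔
        ∃ y, y + 1 ∈ f (Nat.pair x m) := by
      intro m
      rw [Part.mem_map_iff]
      constructor
      · rintro ⟨y, hy, e⟩
        cases y with
        | zero => simp at e
        | succ y => exact ⟨y, hy⟩
      · rintro ⟨y, hy⟩
        exact ⟨y + 1, hy, by simp⟩
    have e0 : (n ∈ Nat.rfind fun n => Part.map (fun m => decide (m = 0)) (f (Nat.pair x n))) ↔
        true ∈ Part.map (fun m => decide (m = 0)) (f (Nat.pair x n)) ∧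
        ∀ {m}, m < n → false ∈ Part.map (fun m => decide (m = 0)) (f (Nat.pair x m)) :=
      Nat.mem_rfind
    show (n ∈ Nat.rfind fun n => Part.map (fun m => decide (m = 0)) (f (Nat.pair x n))) ↔ _
    rw [e0, e1]
    constructor
    · rintro ⟨h1, h2⟩
      obtain ⟨m₀, hm₀⟩ := (hA.spec _ _).1 h1
      have h3 : ∀ k ≤ n, ∃ N, ∀ m < k, ∃ y, A (pre X N) (Nat.pair x m) = some (y + 1) := by
        intro k
        induction k with
        | zero => exact fun _ => ⟨0, fun m hm => absurd hm (Nat.not_lt_zero m)⟩
        | succ k ih =>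
          intro hk
          obtain ⟨N, hN⟩ := ih (by omega)
          obtain ⟨y, hy⟩ := (e2 k).1 (h2 (by omega))
          obtain ⟨N', hN'⟩ := (hA.spec _ _).1 hy
          refine ⟨max N N', fun m hm => ?_⟩
          rcases Nat.lt_succ_iff_lt_or_eq.1 hm with h | rfl
          · obtain ⟨z, hz⟩ := hN m h
            exact ⟨z, hA.mono _ _ _ _ (le_max_left _ _) hz⟩
          · exact ⟨y, hA.mono _ _ _ _ (le_max_right _ _) hN'⟩
      obtain ⟨N, hN⟩ := h3 n (le_refl n)
      refine ⟨max (max m₀ N) (n + 1), by omega, hA.mono _ _ _ _ (by omega) hm₀, fun m hm => ?_⟩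
      obtain ⟨z, hz⟩ := hN m hm
      exact ⟨z, hA.mono _ _ _ _ (by omega) hz⟩
    · rintro ⟨N, _, h2, h3⟩
      refine ⟨(hA.spec _ _).2 ⟨N, h2⟩, fun {m} hm => ?_⟩
      obtain ⟨z, hz⟩ := h3 m hm
      exact (e2 m).2 ⟨z, (hA.spec _ _).2 ⟨N, hz⟩⟩

theorem exists_appr {f : ℕ →. ℕ} (h : TuringReducible f (ora X)) : ∃ A, Appr X f A := by
  rw [TuringReducible, RecursiveIn.iff_nat] at h
  induction h with
  | zero => exact appr_total (f := fun _ => 0) (Computable.const 0)
  | succ => exact appr_total Computable.succ
  | left => exact appr_total (f := fun n => n.unpair.1) (Computable.fst.comp Computable.unpair)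
  | right => exact appr_total (f := fun n => n.unpair.2) (Computable.snd.comp Computable.unpair)
  | oracle g hg =>
    rw [Set.mem_singleton_iff.1 hg]
    exact appr_oracle
  | pair _ _ iha ihb => exact appr_pair iha ihb
  | comp _ _ iha ihb => exact appr_comp iha ihb
  | prec _ _ iha ihb => exact appr_prec iha ihb
  | rfind _ iha => exact appr_rfind iha

end Pool.Agent.MPbdf372
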