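import Pool.Agent.MP_bdf372_lc.Verify

set_option autoImplicit false

open MeasureTheory
open scoped ENNReal

namespace Pool.Agent.MPbdf372

/-! ### Each requirement acts finitely often -/

/-- number of layers of priority `e` -/
def cnt (e : ℕ) (S : List Rec) : ℕ := (S.filter (fun r => decide (r.e = e))).length

/-- the sequences taken care of by layers of priority `e` -/
def killed (e : ℕ) (S : List Rec) : Set (ℕ → Bool) := {X | ∃ r ∈ S, r.e = e ∧ X ∈ cyls r.L}

theorem cnt_cons (e : ℕ) (r : Rec) (S : List Rec) :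
    cnt e (r :: S) = cnt e S + if r.e = e then 1 else 0 := by
  unfold cnt
  rw [List.filter_cons]
  by_cases h : r.e = e <;> simp [h]

theorem killed_cons (e : ℕ) (r : Rec) (S : List Rec) :
    killed e (r :: S) = (if r.e = e then cyls r.L else ∅) ∪ killed e S := by
  ext X
  by_cases h : r.e = e <;> simp [killed, h]

theorem measurableSet_killed (e : ℕ) (S : List Rec) : MeasurableSet (killed e S) := by
  induction S with
  | nil => simp [killed]
  | cons r S ih =>
    rw [killed_cons]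
    split_ifs
    · exact (measurableSet_cyls _).union ih
    · exact MeasurableSet.empty.union ih

theorem pre_take (X : ℕ → Bool) {m n : ℕ} : (pre X n).take m = pre X (min m n) := by
  apply List.ext_getElem?
  intro i
  rw [List.getElem?_take, pre_getElem?, pre_getElem?]
  by_cases h1 : i < m <;> by_cases h2 : i < n <;> simp [h1, h2]

theorem Fresh.disjoint {e : ℕ} {r : Rec} {S : List Rec} (h : ∀ σ ∈ r.L, Fresh e S σ) :
    Disjoint (cyls r.L) (killed e S) := by
  rw [Set.disjoint_left]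
  rintro X ⟨σ, hσ, hX⟩ ⟨r', hr', he', τ, hτ, hX'⟩
  apply h σ hσ r' hr' he' τ hτ
  rw [cyl, Set.mem_ofPred_eq] at hX hX'
  rw [← hX, ← hX', pre_take, pre_take, pre_length, pre_length, min_comm]

theorem cnt_le_mul {e : ℕ} {S : List Rec} (h : Inv S) :
    (cnt e S : ℝ≥0∞) ≤ KK e * lam (killed e S) := by
  induction S with
  | nil => simp [cnt]
  | cons r S ih =>
    rw [cnt_cons, killed_cons]
    by_cases hr : r.e = e
    · rw [if_pos hr, if_pos hr, measure_union (Fresh.disjoint (hr ▸ h.1.fresh))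
        (measurableSet_killed e S), mul_add, add_comm]
      push_cast
      refine add_le_add ?_ (ih h.2)
      obtain ⟨l, hl, hbig⟩ := h.1.big
      rw [lam_cyls hl h.1.nodup, hr] at *
      have h2 : ((2 : ℝ≥0∞)) ^ l ≤ KK e * r.L.length := by exact_mod_cast hbig
      rw [← mul_assoc]
      calc (1 : ℝ≥0∞) = 2 ^ l * 2⁻¹ ^ l := by
            rw [← mul_pow, ENNReal.mul_inv_cancel (by norm_num) (by norm_num), one_pow]
        _ ≤ _ := by gcongr
    · rw [if_neg hr, if_neg hr, Set.empty_union, add_zero]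
      exact ih h.2

theorem cnt_le {e : ℕ} {S : List Rec} (h : Inv S) : cnt e S ≤ KK e := by
  have h1 := cnt_le_mul (e := e) h
  have h2 : (KK e : ℝ≥0∞) * lam (killed e S) ≤ KK e * 1 := by
    gcongr
    exact prob_le_one
  rw [mul_one] at h2
  exact_mod_cast h1.trans h2

theorem cnt_low {e e' : ℕ} (h : e ≤ e') (S : List Rec) : cnt e (low e' S) = cnt e S := by
  unfold cnt low
  rw [List.filter_filter]
  congr 2
  funext r
  rw [Bool.eq_iff_iff]
  simp only [Bool.and_eq_true, decide_eq_true_eq]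
  constructor
  · exact fun h => h.1
  · intro h'
    exact ⟨h', by omega⟩

theorem Acts.cnt_le {t e e' : ℕ} {S S' : List Rec} (h : Acts t e' S S') (he : e ≤ e') :
    cnt e S' = cnt e S + if e' = e then 1 else 0 := by
  obtain ⟨l, a, q, M, _, rfl⟩ := h
  rw [cnt_cons, cnt_low he]
  rfl

theorem cnt_mono {s e : ℕ} (hs : ∀ t ≥ s, ∀ e' < e, ¬ Acts (t + 1) e' (stk t) (stk (t + 1)))
    {t : ℕ} (ht : s ≤ t) (t' : ℕ) (htt : t ≤ t') : cnt e (stk t) ≤ cnt e (stk t') := by
  induction t', htt using Nat.le_induction with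
  | base => exact le_refl _
  | succ t' htt ih =>
    refine ih.trans ?_
    rcases step_cases (t' + 1) (stk t') with h | ⟨e', h⟩
    · rw [stk, h]
    · have h' : Acts (t' + 1) e' (stk t') (stk (t' + 1)) := h
      rw [h'.cnt_le (not_lt.1 fun hlt => hs t' (ht.trans htt) e' hlt h)]
      omega

theorem finite_acts (e : ℕ) :
    ∃ s, ∀ t ≥ s, ∀ e' < e, ¬ Acts (t + 1) e' (stk t) (stk (t + 1)) := by
  induction e with
  | zero => exact ⟨0, fun t _ e' he' => absurd he' (Nat.not_lt_zero e')⟩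
  | succ e ih =>
    obtain ⟨s, hs⟩ := ih
    by_contra hcon
    push Not at hcon
    have hinf : ∀ s', ∃ t ≥ s', Acts (t + 1) e (stk t) (stk (t + 1)) := by
      intro s'
      obtain ⟨t, ht, e', he', h⟩ := hcon (max s s')
      have : e' = e := by
        by_contra hne
        exact hs t (by omega) e' (by omega) h
      exact ⟨t, by omega, this ▸ h⟩
    have hbig : ∀ k, ∃ t ≥ s, k ≤ cnt e (stk t) := by
      intro k
      induction k with
      | zero => exact ⟨s, le_refl s, Nat.zero_le _⟩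
      | succ k ihk =>
        obtain ⟨t, ht, hk⟩ := ihk
        obtain ⟨t', ht', h⟩ := hinf t
        refine ⟨t' + 1, by omega, ?_⟩
        have h1 := cnt_mono hs ht t' ht'
        rw [h.cnt_le (le_refl e), if_pos rfl]
        omega
    obtain ⟨t, _, hk⟩ := hbig (KK e + 1)
    have := cnt_le (e := e) (inv_stk t)
    omega

/-- eventually, the part of the stack of priority at most `e` is constant -/
theorem low_const {s e : ℕ} (hs : ∀ t ≥ s, ∀ e' ≤ e, ¬ Acts (t + 1) e' (stk t) (stk (t + 1)))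
    (t : ℕ) (ht : s ≤ t) : low e (stk t) = low e (stk s) := by
  induction t, ht using Nat.le_induction with
  | base => rfl
  | succ t ht ih =>
    rw [← ih]
    rcases step_cases (t + 1) (stk t) with h | ⟨e', h⟩
    · rw [stk, h]
    · have h' : Acts (t + 1) e' (stk t) (stk (t + 1)) := h
      have he' : e < e' := not_le.1 fun hle => hs t ht e' hle h'
      obtain ⟨l, a, q, M, _, h2⟩ := h'
      rw [h2, low_cons, if_neg (by show ¬ e' ≤ e; omega), low_low he'.le]

/-! ### A permanent layer does its job -/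

theorem triple {s e : ℕ} {T : List Rec} {r : Rec} {S : List Rec}
    (hR : ∀ t ≥ s, low e (stk t) = T ++ r :: S)
    (hno : ∀ t ≥ s, ∀ e' ≤ e, ¬ Acts (t + 1) e' (stk t) (stk (t + 1)))
    {x y : ℕ} (hx : s ≤ x) (hxy : x ≤ y) (hb : x / r.M = y / r.M) (hm : x % r.N = y % r.N)
    (hc : theCol x = theCol y) : rot r.a r.q (x / r.N) = rot r.a r.q (y / r.N) := by
  obtain ⟨T', hT'⟩ := low_suffix (e := e) (inv_stk x)
  rw [hR x hx] at hT'
  have hinv := inv_stk x
  rw [hT'] at hinv
  have hinv2 := hinv.suffix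
  have hinv3 := hinv2.suffix
  have hbR : x / md (T ++ r :: S) = y / md (T ++ r :: S) := by
    obtain ⟨k, hk⟩ := hinv2.md_dvd
    rw [md_cons] at hk
    rw [hk, ← Nat.div_div_eq_div_mul, ← Nat.div_div_eq_div_mul, hb]
  have hst : stk x = stk y := stk_const hR hno hx hxy hbR
  unfold theCol at hc
  rw [← hst, hT', ← List.append_assoc, col_append, col_append (T' ++ T), col_cons, col_cons] at hc
  rw [← List.append_assoc] at hinv
  have e1 : col (T' ++ T) x = col (T' ++ T) y := col_block hinv hb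
  have e2 : col S x = col S y := col_mod hinv3.2 (by rw [← hinv3.1.hN]; exact hm)
  rw [e1, e2] at hc
  revert hc
  cases col (T' ++ T) y <;> cases col S y <;> cases rot r.a r.q (x / r.N) <;>
    cases rot r.a r.q (y / r.N) <;> simp

theorem good_triple {s e : ℕ} {T : List Rec} {r : Rec} {S : List Rec}
    (hR : ∀ t ≥ s, low e (stk t) = T ++ r :: S)
    (hno : ∀ t ≥ s, ∀ e' ≤ e, ¬ Acts (t + 1) e' (stk t) (stk (t + 1)))
    (hN : 0 < r.N) (hq : 0 < r.q)
    {z0 z1 z2 y : ℕ} (h01 : z0 ≤ z1) (h12 : z1 ≤ z2) (hm1 : z1 % r.N = z0 % r.N)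
    (hm2 : z2 % r.N = z0 % r.N) (hy : s ≤ y) (hb : (z0 + y) / r.M = (z2 + y) / r.M)
    (hg : Good r.a r.q ((z1 - z0) / r.N) ((z2 - z0) / r.N))
    (hc1 : theCol (z0 + y) = theCol (z1 + y)) (hc2 : theCol (z0 + y) = theCol (z2 + y)) :
    False := by
  have hb1 : (z0 + y) / r.M = (z1 + y) / r.M := by
    have h1 : (z0 + y) / r.M ≤ (z1 + y) / r.M := Nat.div_le_div_right (by omega)
    have h2 : (z1 + y) / r.M ≤ (z2 + y) / r.M := Nat.div_le_div_right (by omega)
    omega
  have key : ∀ z, z0 ≤ z → z % r.N = z0 % r.N →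
      (z0 + y) / r.M = (z + y) / r.M → theCol (z0 + y) = theCol (z + y) →
      rot r.a r.q ((z0 + y) / r.N) = rot r.a r.q ((z0 + y) / r.N + (z - z0) / r.N) := by
    intro z hz hm hb hc
    have h := triple hR hno (x := z0 + y) (y := z + y) (by omega) (by omega) hb
      (by rw [Nat.add_mod, ← hm, ← Nat.add_mod]) hc
    have hd : r.N ∣ z - z0 := (Nat.modEq_iff_dvd' hz).1 hm.symm
    obtain ⟨k, hk⟩ := hd
    have : z + y = z0 + y + r.N * k := by omega
    rw [h, this, Nat.add_mul_div_left _ _ hN, hk, Nat.mul_div_cancel_left _ hN]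
  exact hg.all hq ((z0 + y) / r.N) ⟨key z1 h01 hm1 hb1 hc1, key z2 (h01.trans h12) hm2 hb hc2⟩

theorem not_killed {s e : ℕ} {R : List Rec} (hR : ∀ t ≥ s, low e (stk t) = R)
    (hno : ∀ t ≥ s, ∀ e' ≤ e, ¬ Acts (t + 1) e' (stk t) (stk (t + 1)))
    {X : ℕ → Bool} (hX : Succ e X theCol) : X ∉ killed e R := by
  rintro ⟨r, hr, he, σ, hσ, hXσ⟩
  obtain ⟨T, S, rfl⟩ := List.append_of_mem hr
  have hinv : Inv (T ++ r :: S) := by
    rw [← hR s (le_refl s)]
    exact (inv_stk s).low
  have hinv2 := hinv.suffix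
  have hN : 0 < r.N := by
    rw [hinv2.1.hN]
    exact hinv2.2.md_pos
  obtain ⟨t, ht⟩ := hinv2.1.ok
  obtain ⟨F, hF, hok, ⟨hg1, hg2⟩, hM⟩ := ht σ hσ
  rw [Option.mem_toList, he] at hF
  obtain ⟨⟨H, ⟨hinf, b, hb⟩, hsound⟩, _⟩ := hX
  have hXσ' : pre X σ.length = σ := hXσ
  obtain ⟨m1, m2, m3, m4, m5, m6⟩ := hsound σ.length r.N t F (by rw [hXσ']; exact hF)
  obtain ⟨F1, F2, F3, F4, F5, F6⟩ := F
  unfold OkF at hok
  unfold diffs at hg1 hg2
  simp only at hok hg1 hg2 hM m1 m2 m3 m4 m5 m6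
  obtain ⟨⟨r2, r3, r4, r5, r6⟩, g1, g2, g3, g4, g5⟩ := hok
  obtain ⟨y, hyH, hy⟩ := hinf.exists_gt (s + F6)
  have c : ∀ z ∈ H, z ≤ F6 → theCol (z + y) = b := fun z hz hzF => hb z hz y hyH (by omega)
  have b1 : F1 ≤ F2 := by omega
  have b2 : F2 ≤ F3 := by omega
  have b4 : F4 ≤ F5 := by omega
  have b5 : F5 ≤ F6 := by omega
  have hsy : s ≤ y := by omega
  by_cases hcut : (F1 + y) / r.M = (F3 + y) / r.M
  · exact good_triple hR hno hN hinv2.1.hq b1 b2 r2 r3 hsy hcut hg1
      (by rw [c F1 m1 (by omega), c F2 m2 (by omega)])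
      (by rw [c F1 m1 (by omega), c F3 m3 (by omega)])
  · have h1 : (F1 + y) / r.M ≤ (F3 + y) / r.M := Nat.div_le_div_right (by omega)
    have h2 : (F3 + y) / r.M ≤ (F4 + y) / r.M := Nat.div_le_div_right (by omega)
    have h3 : (F4 + y) / r.M ≤ (F6 + y) / r.M := Nat.div_le_div_right (by omega)
    have h4 : (F6 + y) / r.M ≤ (F1 + y + r.M) / r.M := Nat.div_le_div_right (by omega)
    rw [Nat.add_div_right _ hinv2.1.hM] at h4
    have hcut2 : (F4 + y) / r.M = (F6 + y) / r.M := by omega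
    exact good_triple hR hno hN hinv2.1.hq b4 b5 (r5.trans r4.symm)
      (r6.trans r4.symm) hsy hcut2 hg2
      (by rw [c F4 m4 (by omega), c F5 m5 (by omega)])
      (by rw [c F4 m4 (by omega), c F6 m6 (by omega)])

/-! ### The measure of the sequences that compute solutions -/

theorem OkF.gap {N : ℕ} (hN : 0 < N) {F : Six} (h : OkF N F) : Gap (diffs N F) := by
  obtain ⟨F1, F2, F3, F4, F5, F6⟩ := F
  unfold OkF at h
  unfold Gap diffs
  simp only at h ⊢
  obtain ⟨⟨r2, r3, r4, r5, r6⟩, g1, g2, g3, g4, g5⟩ := h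
  have hd : ∀ {a b : ℕ}, a ≤ b → b % N = a % N → ∃ k, b - a = N * k := by
    intro a b hab hm
    exact (Nat.modEq_iff_dvd' hab).1 hm.symm
  obtain ⟨k1, e1⟩ := hd (a := F1) (b := F2) (by omega) r2
  obtain ⟨k2, e2⟩ := hd (a := F1) (b := F3) (by omega) r3
  obtain ⟨k3, e3⟩ := hd (a := F4) (b := F5) (by omega) (r5.trans r4.symm)
  obtain ⟨k4, e4⟩ := hd (a := F4) (b := F6) (by omega) (r6.trans r4.symm)
  rw [e1, e2, e3, e4]
  simp only [Nat.mul_div_cancel_left _ hN]
  refine ⟨?_, ?_, ?_, ?_⟩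
  · exact Nat.le_of_mul_le_mul_left (by rw [← e1]; omega) hN
  · refine Nat.le_of_mul_le_mul_left ?_ hN
    rw [mul_left_comm, ← e1, ← e2]
    omega
  · refine Nat.le_of_mul_le_mul_left ?_ hN
    rw [mul_left_comm, ← e2, ← e3]
    omega
  · refine Nat.le_of_mul_le_mul_left ?_ hN
    rw [mul_left_comm, ← e3, ← e4]
    omega

end Pool.Agent.MPbdf372
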