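import Mathlib

set_option autoImplicit false

namespace Pool.Agent.MPbdf372

/-- the rotation colouring: is the fractional part of `a y / q` at least `1 / 2`? -/
def rot (a q y : ℕ) : Bool := decide (q ≤ 2 * ((a * y) % q))

theorem rot_add_period (a q y k : ℕ) : rot a q (y + q * k) = rot a q y := by
  unfold rot
  have : (a * (y + q * k)) % q = (a * y) % q := by
    rw [mul_add, mul_left_comm, Nat.add_mul_mod_self_left]
  rw [this]

theorem rot_mod (a q y : ℕ) : rot a q (y % q) = rot a q y := by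
  conv_rhs => rw [← Nat.mod_add_div y q]
  rw [rot_add_period]

/-- no translate of `{0, d, d'}` is monochromatic -/
def Good (a q d d' : ℕ) : Prop :=
  ∀ m < q, ¬ (rot a q m = rot a q (m + d) ∧ rot a q m = rot a q (m + d'))

theorem Good.all {a q d d' : ℕ} (hq : 0 < q) (h : Good a q d d') (m : ℕ) :
    ¬ (rot a q m = rot a q (m + d) ∧ rot a q m = rot a q (m + d')) := by
  have h1 := h (m % q) (Nat.mod_lt m hq)
  have h2 : ∀ x, rot a q (m % q + x) = rot a q (m + x) := by
    intro x
    have := rot_add_period a q (m % q + x) (m / q)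
    rw [← this]
    congr 1
    have := Nat.mod_add_div m q
    omega
  rw [h2, h2, rot_mod] at h1
  exact h1

theorem good_of_quarters {a q d d' : ℕ} (hq : 0 < q)
    (h1 : q ≤ 4 * ((a * d) % q)) (h2 : 2 * ((a * d) % q) < q)
    (h3 : q ≤ 2 * ((a * d') % q)) (h4 : 4 * ((a * d') % q) < 3 * q) : Good a q d d' := by
  intro m _
  rintro ⟨e1, e2⟩
  unfold rot at e1 e2
  have hφ : (a * m) % q < q := Nat.mod_lt _ hq
  have e3 : (a * (m + d)) % q = ((a * m) % q + (a * d) % q) % q := by
    rw [mul_add, Nat.add_mod]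
  have e4 : (a * (m + d')) % q = ((a * m) % q + (a * d') % q) % q := by
    rw [mul_add, Nat.add_mod]
  rw [e3] at e1
  rw [e4] at e2
  generalize (a * m) % q = φ at *
  generalize (a * d) % q = u at *
  generalize (a * d') % q = v at *
  have k1 : (φ + u) % q = if φ + u < q then φ + u else φ + u - q := by
    split_ifs with h
    · exact Nat.mod_eq_of_lt h
    · rw [Nat.mod_eq_sub_mod (by omega), Nat.mod_eq_of_lt (by omega)]
  have k2 : (φ + v) % q = if φ + v < q then φ + v else φ + v - q := by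
    split_ifs with h
    · exact Nat.mod_eq_of_lt h
    · rw [Nat.mod_eq_sub_mod (by omega), Nat.mod_eq_of_lt (by omega)]
  rw [k1] at e1
  rw [k2] at e2
  rw [decide_eq_decide] at e1 e2
  split_ifs at e1 e2 <;> omega

/-- number of elements of an interval with prescribed cells -/
def cells (α ℓ : ℕ) (W : List (ℕ × ℕ)) : ℕ :=
  ((Finset.Ico α (α + ℓ)).filter (fun a => ∀ p ∈ W, (a / p.1) % 4 = p.2)).card

theorem cells_lower : ∀ (W : List (ℕ × ℕ)) (α ℓ : ℕ), (∀ p ∈ W, 0 < p.1 ∧ p.2 < 4) →
    (∀ p ∈ W.head?, 8 * p.1 ≤ ℓ) → W.IsChain (fun p p' => 8 * p'.1 ≤ p.1) →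
    ℓ ≤ 12 ^ W.length * cells α ℓ W := by
  intro W
  induction W with
  | nil =>
    intro α ℓ _ _ _
    simp [cells]
  | cons p W ih =>
    intro α ℓ hpos hhead hchain
    obtain ⟨w, t⟩ := p
    obtain ⟨hw, ht⟩ : 0 < w ∧ t < 4 := hpos (w, t) List.mem_cons_self
    have h8 : 8 * w ≤ ℓ := hhead (w, t) (by simp)
    -- the cells `k ≡ t` inside the interval
    obtain ⟨k₀, hk₀t, hk₀α, hk₀u⟩ : ∃ k₀, k₀ % 4 = t ∧ α ≤ k₀ * w ∧ k₀ * w < α + 4 * w := by
      have hb1 : α ≤ (α / w + 1) * w := by
        have h1 := Nat.div_add_mod α w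
        have h2 := Nat.mod_lt α hw
        have h3 : (α / w + 1) * w = w * (α / w) + w := by ring
        omega
      have hbl : (α / w) * w ≤ α := Nat.div_mul_le_self α w
      by_cases h0 : (α / w) * w = α
      · refine ⟨α / w + (t + 4 - (α / w) % 4) % 4, by omega, ?_, ?_⟩
        · rw [add_mul]
          omega
        · rw [add_mul]
          have h1 : ((t + 4 - (α / w) % 4) % 4) * w ≤ 3 * w := Nat.mul_le_mul_right w (by omega)
          omega
      · refine ⟨α / w + 1 + (t + 4 - (α / w + 1) % 4) % 4, by omega, ?_, ?_⟩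
        · rw [add_mul]
          omega
        · rw [add_mul, add_mul]
          have h1 : ((t + 4 - (α / w + 1) % 4) % 4) * w ≤ 3 * w :=
            Nat.mul_le_mul_right w (by omega)
          omega
    obtain ⟨L, hL⟩ : ∃ L, L = ℓ / w := ⟨_, rfl⟩
    obtain ⟨J, hJ⟩ : ∃ J, J = (L - 1) / 4 := ⟨_, rfl⟩
    have hL8 : 8 ≤ L := by
      rw [hL, Nat.le_div_iff_mul_le hw]
      exact h8
    have hLw : L * w ≤ ℓ := by
      rw [hL]
      exact Nat.div_mul_le_self ℓ w
    have hLu : ℓ < (L + 1) * w := by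
      rw [hL]
      have h1 := Nat.div_add_mod ℓ w
      have h2 := Nat.mod_lt ℓ hw
      have h3 : (ℓ / w + 1) * w = w * (ℓ / w) + w := by ring
      omega
    have hin : ∀ j < J, (k₀ + 4 * j + 1) * w ≤ α + ℓ := by
      intro j hj
      have h1 : (4 * j + 5) * w ≤ L * w := Nat.mul_le_mul_right w (by omega)
      have h2 : (k₀ + 4 * j + 1) * w = k₀ * w + (4 * j + 1) * w := by ring
      have h3 : (4 * j + 5) * w = (4 * j + 1) * w + 4 * w := by ring
      omega
    have hsum : ∑ j ∈ Finset.range J, cells ((k₀ + 4 * j) * w) w W ≤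
        cells α ℓ ((w, t) :: W) := by
      unfold cells
      rw [← Finset.card_biUnion]
      · apply Finset.card_le_card
        intro a ha
        obtain ⟨j, hj, ha⟩ := Finset.mem_biUnion.1 ha
        rw [Finset.mem_range] at hj
        rw [Finset.mem_filter, Finset.mem_Ico] at ha ⊢
        have h1 := hin j hj
        have h2 : (k₀ + 4 * j + 1) * w = (k₀ + 4 * j) * w + w := by ring
        have h3 : (k₀ + 4 * j) * w = k₀ * w + 4 * j * w := by ring
        have h4 : a / w = k₀ + 4 * j := by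
          rw [Nat.div_eq_iff hw]
          have := ha.1.1
          have := ha.1.2
          omega
        refine ⟨⟨by omega, by omega⟩, ?_⟩
        intro p hp
        rcases List.mem_cons.1 hp with rfl | hp
        · show a / w % 4 = t
          rw [h4]
          omega
        · exact ha.2 p hp
      · intro j _ j' _ hne
        rw [Function.onFun, Finset.disjoint_left]
        intro a ha ha'
        rw [Finset.mem_filter, Finset.mem_Ico] at ha ha'
        apply hne
        have h4 : a / w = k₀ + 4 * j := by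
          rw [Nat.div_eq_iff hw]
          have := ha.1.1
          have := ha.1.2
          omega
        have h5 : a / w = k₀ + 4 * j' := by
          rw [Nat.div_eq_iff hw]
          have := ha'.1.1
          have := ha'.1.2
          omega
        omega
    have hchain' : W.IsChain (fun p p' => 8 * p'.1 ≤ p.1) := hchain.tail
    have hhead' : ∀ p ∈ W.head?, 8 * p.1 ≤ w := by
      intro p hp
      cases W with
      | nil => simp at hp
      | cons p' W' =>
        simp only [List.head?_cons, Option.mem_def, Option.some.injEq] at hp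
        subst hp
        exact (List.isChain_cons_cons.1 hchain).1
    have hcell : ∀ j, w ≤ 12 ^ W.length * cells ((k₀ + 4 * j) * w) w W := fun j =>
      ih _ _ (fun p hp => hpos p (List.mem_cons_of_mem _ hp)) hhead' hchain'
    have hJL : L + 1 ≤ 12 * J := by omega
    calc ℓ ≤ (L + 1) * w := hLu.le
      _ ≤ 12 * J * w := Nat.mul_le_mul_right w hJL
      _ = 12 * ∑ _j ∈ Finset.range J, w := by simp [mul_assoc]
      _ ≤ 12 * ∑ j ∈ Finset.range J, 12 ^ W.length * cells ((k₀ + 4 * j) * w) w W := by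
        apply Nat.mul_le_mul_left
        exact Finset.sum_le_sum fun j _ => hcell j
      _ = 12 ^ (W.length + 1) * ∑ j ∈ Finset.range J, cells ((k₀ + 4 * j) * w) w W := by
        rw [← Finset.mul_sum, pow_succ]
        ring
      _ ≤ 12 ^ (W.length + 1) * cells α ℓ ((w, t) :: W) := Nat.mul_le_mul_left _ hsum

/-- four lacunary differences -/
def Gap (d : ℕ × ℕ × ℕ × ℕ) : Prop :=
  2 ≤ d.1 ∧ 8 * d.1 ≤ d.2.1 ∧ 8 * d.2.1 ≤ d.2.2.1 ∧ 8 * d.2.2.1 ≤ d.2.2.2

/-- the angle is good for both triples -/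
def Good2 (a q : ℕ) (d : ℕ × ℕ × ℕ × ℕ) : Prop := Good a q d.1 d.2.1 ∧ Good a q d.2.2.1 d.2.2.2

theorem quarter_eq {a q d w : ℕ} (hd : 0 < d) (hw : 0 < w) (hq : q = 4 * d * w) :
    (4 * ((a * d) % q)) / q = (a / w) % 4 := by
  have hqp : 0 < q := by
    rw [hq]
    positivity
  -- `a = w b + r`
  have h1 := Nat.div_add_mod a w
  have h2 := Nat.mod_lt a hw
  have h3 := Nat.div_add_mod (a / w) 4
  generalize hb : a / w = b at *
  generalize hr : a % w = r at *
  generalize hc : b / 4 = c' at *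
  generalize hs : b % 4 = s at *
  have h4 : s < 4 := by omega
  have h5 : a * d = q * c' + (s * w + r) * d := by
    rw [hq, ← h1, ← h3]
    ring
  have h6 : (s * w + r) * d < q := by
    rw [hq]
    have : s * w + r < 4 * w := by nlinarith
    calc (s * w + r) * d < 4 * w * d := Nat.mul_lt_mul_of_pos_right this hd
      _ = 4 * d * w := by ring
  have h7 : (a * d) % q = (s * w + r) * d := by
    rw [h5, Nat.mul_add_mod, Nat.mod_eq_of_lt h6]
  rw [h7, Nat.div_eq_iff hqp]
  have h8 : 4 * ((s * w + r) * d) = s * q + 4 * d * r := by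
    rw [hq]
    ring
  have h9 : 4 * d * r < q := by
    rw [hq]
    exact Nat.mul_lt_mul_of_pos_left h2 (by positivity)
  constructor <;> omega

theorem good2_count {q : ℕ} (hq : 0 < q) {d : ℕ × ℕ × ℕ × ℕ} (hd : Gap d)
    (h1 : 4 * d.1 ∣ q) (h2 : 4 * d.2.1 ∣ q) (h3 : 4 * d.2.2.1 ∣ q) (h4 : 4 * d.2.2.2 ∣ q)
    [DecidablePred fun a => Good2 a q d] :
    q ≤ 12 ^ 4 * ((Finset.range q).filter (fun a => Good2 a q d)).card := by
  obtain ⟨d₁, d₂, d₃, d₄⟩ := d
  obtain ⟨g1, g2, g3, g4⟩ := hd
  simp only at g1 g2 g3 g4 h1 h2 h3 h4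
  obtain ⟨w₁, hw₁⟩ := h1
  obtain ⟨w₂, hw₂⟩ := h2
  obtain ⟨w₃, hw₃⟩ := h3
  obtain ⟨w₄, hw₄⟩ := h4
  have p1 : 0 < w₁ := by
    rcases Nat.eq_zero_or_pos w₁ with h | h
    · rw [h, mul_zero] at hw₁; omega
    · exact h
  have p2 : 0 < w₂ := by
    rcases Nat.eq_zero_or_pos w₂ with h | h
    · rw [h, mul_zero] at hw₂; omega
    · exact h
  have p3 : 0 < w₃ := by
    rcases Nat.eq_zero_or_pos w₃ with h | h
    · rw [h, mul_zero] at hw₃; omega
    · exact h
  have p4 : 0 < w₄ := by
    rcases Nat.eq_zero_or_pos w₄ with h | h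
    · rw [h, mul_zero] at hw₄; omega
    · exact h
  have step : ∀ {d w d' w' : ℕ}, 0 < d → q = 4 * d * w → q = 4 * d' * w' → 8 * d ≤ d' →
      8 * w' ≤ w := by
    intro d w d' w' hd e e' hdd
    by_contra hcon
    push Not at hcon
    have k1 : 4 * d * w < 4 * d * (8 * w') := Nat.mul_lt_mul_of_pos_left hcon (by omega)
    have k2 : 4 * d * (8 * w') ≤ 4 * d' * w' := by
      have : 4 * d * (8 * w') = 4 * (8 * d) * w' := by ring
      rw [this]
      exact Nat.mul_le_mul_right w' (by omega)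
    omega
  have hcl := cells_lower [(w₁, 1), (w₂, 2), (w₃, 1), (w₄, 2)] 0 q
    (by
      intro p hp
      simp only [List.mem_cons, List.not_mem_nil, or_false] at hp
      rcases hp with rfl | rfl | rfl | rfl
      · exact ⟨p1, by norm_num⟩
      · exact ⟨p2, by norm_num⟩
      · exact ⟨p3, by norm_num⟩
      · exact ⟨p4, by norm_num⟩)
    (by
      intro p hp
      simp only [List.head?_cons, Option.mem_def, Option.some.injEq] at hp
      subst hp
      show 8 * w₁ ≤ q
      rw [hw₁]
      exact Nat.mul_le_mul_right w₁ (by omega))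
    (by
      simp only [List.isChain_cons_cons, List.isChain_singleton, and_true]
      exact ⟨step (by omega) hw₁ hw₂ g2, step (by omega) hw₂ hw₃ g3,
        step (by omega) hw₃ hw₄ g4⟩)
  refine hcl.trans ?_
  simp only [List.length_cons, List.length_nil, zero_add, Nat.reduceAdd]
  apply Nat.mul_le_mul_left
  unfold cells
  apply Finset.card_le_card
  intro a ha
  rw [Finset.mem_filter, Finset.mem_Ico] at ha
  rw [Finset.mem_filter, Finset.mem_range]
  refine ⟨by omega, ?_⟩
  have c1 : (a / w₁) % 4 = 1 := ha.2 (w₁, 1) (by simp)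
  have c2 : (a / w₂) % 4 = 2 := ha.2 (w₂, 2) (by simp)
  have c3 : (a / w₃) % 4 = 1 := ha.2 (w₃, 1) (by simp)
  have c4 : (a / w₄) % 4 = 2 := ha.2 (w₄, 2) (by simp)
  rw [← quarter_eq (a := a) (by omega) p1 hw₁, Nat.div_eq_iff hq] at c1
  rw [← quarter_eq (a := a) (by omega) p2 hw₂, Nat.div_eq_iff hq] at c2
  rw [← quarter_eq (a := a) (by omega) p3 hw₃, Nat.div_eq_iff hq] at c3
  rw [← quarter_eq (a := a) (by omega) p4 hw₄, Nat.div_eq_iff hq] at c4
  show Good a q d₁ d₂ ∧ Good a q d₃ d₄
  exact ⟨good_of_quarters hq (by omega) (by omega) (by omega) (by omega),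
    good_of_quarters hq (by omega) (by omega) (by omega) (by omega)⟩

open Classical in
/-- one angle is good for a positive fraction of any finite family of lacunary differences -/
theorem exists_rotation {ι : Type*} (s : Finset ι) (d : ι → ℕ × ℕ × ℕ × ℕ)
    (hd : ∀ i ∈ s, Gap (d i)) : ∃ a q, 0 < q ∧
      s.card ≤ 12 ^ 4 * (s.filter (fun i => Good2 a q (d i))).card := by
  let f : ι → ℕ := fun i => (d i).1 * (d i).2.1 * (d i).2.2.1 * (d i).2.2.2
  let q : ℕ := 4 * ∏ i ∈ s, f i
  have hfpos : ∀ i ∈ s, 0 < f i := by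
    intro i hi
    obtain ⟨g1, g2, g3, g4⟩ := hd i hi
    have k1 : 0 < (d i).1 := by omega
    have k2 : 0 < (d i).2.1 := by omega
    have k3 : 0 < (d i).2.2.1 := by omega
    have k4 : 0 < (d i).2.2.2 := by omega
    positivity
  have hq : 0 < q := by
    have := Finset.prod_pos hfpos
    positivity
  have hdvd : ∀ i ∈ s, 4 * f i ∣ q := fun i hi => Nat.mul_dvd_mul_left 4 (Finset.dvd_prod_of_mem f hi)
  have hcount : ∀ i ∈ s, q ≤ 12 ^ 4 * ((Finset.range q).filter (fun a => Good2 a q (d i))).card := by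
    intro i hi
    have h := hdvd i hi
    refine good2_count hq (hd i hi) ?_ ?_ ?_ ?_
    · exact (Nat.mul_dvd_mul_left 4 ⟨(d i).2.1 * (d i).2.2.1 * (d i).2.2.2, by
        simp only [f]; ring⟩).trans h
    · exact (Nat.mul_dvd_mul_left 4 ⟨(d i).1 * (d i).2.2.1 * (d i).2.2.2, by
        simp only [f]; ring⟩).trans h
    · exact (Nat.mul_dvd_mul_left 4 ⟨(d i).1 * (d i).2.1 * (d i).2.2.2, by
        simp only [f]; ring⟩).trans h
    · exact (Nat.mul_dvd_mul_left 4 ⟨(d i).1 * (d i).2.1 * (d i).2.2.1, by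
        simp only [f]; ring⟩).trans h
  -- double counting
  have hdc : ∑ i ∈ s, ((Finset.range q).filter (fun a => Good2 a q (d i))).card =
      ∑ a ∈ Finset.range q, (s.filter (fun i => Good2 a q (d i))).card := by
    simp only [Finset.card_filter]
    rw [Finset.sum_comm]
  by_contra hcon
  push Not at hcon
  have hlt : ∀ a ∈ Finset.range q,
      12 ^ 4 * (s.filter (fun i => Good2 a q (d i))).card < s.card := fun a _ => hcon a q hq
  have h1 : s.card * q ≤ 12 ^ 4 * ∑ i ∈ s,
      ((Finset.range q).filter (fun a => Good2 a q (d i))).card := by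
    rw [Finset.mul_sum, ← smul_eq_mul, ← Finset.sum_const]
    exact Finset.sum_le_sum hcount
  rw [hdc, Finset.mul_sum] at h1
  have h2 : ∑ a ∈ Finset.range q, 12 ^ 4 * (s.filter (fun i => Good2 a q (d i))).card <
      ∑ _a ∈ Finset.range q, s.card :=
    Finset.sum_lt_sum_of_nonempty ⟨0, Finset.mem_range.2 hq⟩ hlt
  rw [Finset.sum_const, Finset.card_range, smul_eq_mul, mul_comm q] at h2
  omega

end Pool.Agent.MPbdf372
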