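import Pool.Agent.MP_bdf372_lc.Functional

set_option autoImplicit false

open Nat.Partrec (Code)

namespace Pool.Agent.MPbdf372

variable {X : ℕ → Bool}

/-- the six answers -/
def answers (A : List Bool → ℕ → Option ℕ) (σ : List Bool) (F : Six) : List (Option ℕ) :=
  [A σ F.1, A σ F.2.1, A σ F.2.2.1, A σ F.2.2.2.1, A σ F.2.2.2.2.1, A σ F.2.2.2.2.2]

open Classical in
noncomputable def testL (N : ℕ) (F : Six) (L : List (Option ℕ)) : Option Six :=
  if OkF N F ∧ L = List.replicate 6 (some 1) then some F else none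

theorem pr_testL : Primrec fun z : ℕ × Six × List (Option ℕ) => testL z.1 z.2.1 z.2.2 := by
  classical
  unfold testL
  refine (Primrec.ite (((pr_okF (Primrec.fst.comp Primrec.snd) Primrec.fst)).and
    (Primrec.eq.comp (Primrec.snd.comp Primrec.snd)
      (Primrec.const (List.replicate 6 (some 1)))))
    (Primrec.option_some.comp (Primrec.fst.comp Primrec.snd)) (Primrec.const none)).of_eq
    fun x => ?_
  congr

noncomputable def testA (A : List Bool → ℕ → Option ℕ) (σ : List Bool) (N k : ℕ) : Option Six :=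
  (Encodable.decode k : Option Six).bind fun F => testL N F (answers A σ F)

theorem testA_eq {A : List Bool → ℕ → Option ℕ} {σ : List Bool} {N k : ℕ} {F : Six} :
    testA A σ N k = some F ↔ (Encodable.decode k : Option Six) = some F ∧ OkF N F ∧
      answers A σ F = List.replicate 6 (some 1) := by
  unfold testA testL
  rw [Option.bind_eq_some_iff]
  constructor
  · rintro ⟨G, hG, h⟩
    split_ifs at h with hc
    · cases h
      exact ⟨hG, hc⟩
  · rintro ⟨hG, hc⟩
    exact ⟨F, hG, if_pos hc⟩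

noncomputable def srchF (A : List Bool → ℕ → Option ℕ) (σ : List Bool) (N : ℕ) : ℕ → Option Six
  | 0 => none
  | k + 1 => srchF A σ N k <|> testA A σ N k

theorem srchF_sound {A : List Bool → ℕ → Option ℕ} {σ : List Bool} {N k : ℕ} {F : Six}
    (h : srchF A σ N k = some F) : OkF N F ∧ answers A σ F = List.replicate 6 (some 1) := by
  induction k with
  | zero => simp [srchF] at h
  | succ k ih =>
    rw [srchF] at h
    cases hs : srchF A σ N k with
    | none =>
      rw [hs] at h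
      exact (testA_eq.1 (by simpa using h)).2
    | some G =>
      rw [hs] at h
      have : G = F := by simpa using h
      exact ih (by rw [hs, this])

theorem srchF_complete {A : List Bool → ℕ → Option ℕ} {σ : List Bool} {N m k : ℕ} {F : Six}
    (h : testA A σ N m = some F) (hk : m < k) : ∃ G, srchF A σ N k = some G := by
  induction k with
  | zero => omega
  | succ k ih =>
    rw [srchF]
    cases hs : srchF A σ N k with
    | none =>
      rcases Nat.lt_succ_iff_lt_or_eq.1 hk with h' | rfl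
      · obtain ⟨G, hG⟩ := ih h'
        rw [hs] at hG
        simp at hG
      · exact ⟨F, by simpa using h⟩
    | some G => exact ⟨G, by simp⟩

attribute [local irreducible] testL answers OkF in
theorem comp_testA' {A : List Bool → ℕ → Option ℕ}
    (hA : Computable fun w : ((List Bool × ℕ) × ℕ) × Six => answers A w.1.1.1 w.2) :
    Computable fun z : (List Bool × ℕ) × ℕ => testA A z.1.1 z.1.2 z.2 := by
  have hdec : Computable fun z : (List Bool × ℕ) × ℕ => (Encodable.decode z.2 : Option Six) :=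
    Computable.decode.comp Computable.snd
  have N : Computable fun w : ((List Bool × ℕ) × ℕ) × Six => w.1.1.2 :=
    Computable.snd.comp (Computable.fst.comp Computable.fst)
  have f : Computable fun w : ((List Bool × ℕ) × ℕ) × Six => w.2 := Computable.snd
  have hb : Computable fun w : ((List Bool × ℕ) × ℕ) × Six =>
      testL w.1.1.2 w.2 (answers A w.1.1.1 w.2) :=
    (Computable.comp pr_testL.to_comp (N.pair (f.pair hA))).of_eq fun _ => rfl
  exact Computable.option_bind hdec hb.to₂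

theorem comp_testA {A : List Bool → ℕ → Option ℕ} (hA : Computable₂ A) :
    Computable fun z : (List Bool × ℕ) × ℕ => testA A z.1.1 z.1.2 z.2 := by
  have s : Computable fun w : ((List Bool × ℕ) × ℕ) × Six => w.1.1.1 :=
    Computable.fst.comp (Computable.fst.comp Computable.fst)
  have f : Primrec fun w : ((List Bool × ℕ) × ℕ) × Six => w.2 := Primrec.snd
  have c : ∀ {g : ((List Bool × ℕ) × ℕ) × Six → Option ℕ}
      {l : ((List Bool × ℕ) × ℕ) × Six → List (Option ℕ)}, Computable g → Computable l →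
      Computable fun w => g w :: l w := fun hg hl => Primrec.list_cons.to_comp.comp hg hl
  have ha : Computable fun w : ((List Bool × ℕ) × ℕ) × Six => answers A w.1.1.1 w.2 := by
    unfold answers
    exact c (hA.comp s (pr_1 f).to_comp) (c (hA.comp s (pr_2 f).to_comp)
      (c (hA.comp s (pr_3 f).to_comp) (c (hA.comp s (pr_4 f).to_comp)
      (c (hA.comp s (pr_5 f).to_comp) (c (hA.comp s (pr_6 f).to_comp) (Computable.const []))))))
  exact comp_testA' ha

attribute [local irreducible] testA in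
theorem comp_srchF {A : List Bool → ℕ → Option ℕ} (hA : Computable₂ A) :
    Computable fun z : List Bool × ℕ => srchF A z.1 z.2 z.1.length := by
  have hF : Computable₂ fun (z : (List Bool × ℕ)) (w : ℕ × Option Six) =>
      (w.2 <|> testA A z.1 z.2 w.1) := by
    have h1 : Computable fun w : (List Bool × ℕ) × ℕ × Option Six =>
        testA A w.1.1 w.1.2 w.2.1 := (comp_testA hA).comp
      (Computable.fst.pair (Computable.fst.comp Computable.snd))
    exact Primrec.option_orElse.to_comp.comp (Computable.snd.comp Computable.snd) h1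
  have h := Computable.nat_rec (f := fun z : (List Bool × ℕ) => z.1.length)
    (g := fun _ => none) (Computable.list_length.comp Computable.fst) (Computable.const none) hF
  refine h.of_eq fun z => ?_
  obtain ⟨σ, N⟩ := z
  simp only
  generalize σ.length = k
  induction k with
  | zero => rfl
  | succ n ih => rw [srchF, ← ih]

/-- the `e`-th program computes an infinite solution from `X` (in a weak sense) -/
structure Succ (e : ℕ) (X : ℕ → Bool) (c : ℕ → Bool) : Prop where
  sol : ∃ H : Set ℕ, IsSolution c H ∧ ∀ n N t F, outn t e (pre X n) N = some F →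
    F.1 ∈ H ∧ F.2.1 ∈ H ∧ F.2.2.1 ∈ H ∧ F.2.2.2.1 ∈ H ∧ F.2.2.2.2.1 ∈ H ∧ F.2.2.2.2.2 ∈ H
  compl : ∀ N, 0 < N → ∃ n₀, ∀ n ≥ n₀, ∃ F, OkF N F ∧ ∃ t₀, ∀ t ≥ t₀,
    outn t e (pre X n) N = some F

theorem exists_mem_residue {H : Set ℕ} (hH : H.Infinite) {N : ℕ} (hN : 0 < N) :
    ∃ ρ, {x ∈ H | x % N = ρ}.Infinite := by
  by_contra hcon
  push Not at hcon
  have h : H ⊆ ⋃ ρ ∈ Finset.range N, {x ∈ H | x % N = ρ} := by
    intro x hx
    simp only [Set.mem_iUnion]
    exact ⟨x % N, Finset.mem_range.2 (Nat.mod_lt _ hN), hx, rfl⟩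
  refine hH (Set.Finite.subset (Set.Finite.biUnion (Finset.finite_toSet _) fun ρ _ => ?_) h)
  exact hcon ρ

theorem exists_okF {H : Set ℕ} (hH : H.Infinite) {N : ℕ} (hN : 0 < N) :
    ∃ F : Six, OkF N F ∧ F.1 ∈ H ∧ F.2.1 ∈ H ∧ F.2.2.1 ∈ H ∧ F.2.2.2.1 ∈ H ∧
      F.2.2.2.2.1 ∈ H ∧ F.2.2.2.2.2 ∈ H := by
  obtain ⟨ρ, hρ⟩ := exists_mem_residue hH hN
  have hex : ∀ b : ℕ, ∃ x, b ≤ x ∧ x ∈ H ∧ x % N = ρ := by
    intro b
    obtain ⟨x, hx, hb⟩ := hρ.exists_gt b
    exact ⟨x, hb.le, hx.1, hx.2⟩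
  obtain ⟨z0, _, m0, r0⟩ := hex 0
  obtain ⟨z1, h1, m1, r1⟩ := hex (z0 + 2 * N)
  obtain ⟨z2, h2, m2, r2⟩ := hex (z0 + 8 * (z1 - z0))
  obtain ⟨z3, h3, m3, r3⟩ := hex (z2 + 1)
  obtain ⟨z4, h4, m4, r4⟩ := hex (z3 + 8 * (z2 - z0))
  obtain ⟨z5, h5, m5, r5⟩ := hex (z3 + 8 * (z4 - z3))
  refine ⟨(z0, z1, z2, z3, z4, z5), ?_, m0, m1, m2, m3, m4, m5⟩
  unfold OkF
  simp only
  exact ⟨⟨by rw [r1, r0], by rw [r2, r0], by rw [r3, r0], by rw [r4, r0], by rw [r5, r0]⟩,
    h1, h2, h3, h4, h5⟩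

theorem answers_eq {A : List Bool → ℕ → Option ℕ} {σ : List Bool} {F : Six} :
    answers A σ F = List.replicate 6 (some 1) ↔ A σ F.1 = some 1 ∧ A σ F.2.1 = some 1 ∧
      A σ F.2.2.1 = some 1 ∧ A σ F.2.2.2.1 = some 1 ∧ A σ F.2.2.2.2.1 = some 1 ∧
      A σ F.2.2.2.2.2 = some 1 := by
  simp [answers, List.replicate]

theorem one_mem_chi {H : Set ℕ} {k : ℕ} : 1 ∈ chi H k ↔ k ∈ H := by
  unfold chi
  rw [Part.mem_some_iff]
  by_cases h : k ∈ H <;> simp [h]

theorem exists_succ {c : ℕ → Bool} {H : Set ℕ} (hc : IsSolution c H)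
    (h : TuringReducible (chi H) (ora X)) : ∃ e, Succ e X c := by
  obtain ⟨A, hA⟩ := exists_appr h
  have hp : Partrec fun z : List Bool × ℕ => (Part.ofOption (srchF A z.1 z.2 z.1.length)) :=
    (comp_srchF hA.comp).ofOption
  obtain ⟨cd, hcd⟩ := Code.exists_code.1 hp
  have hev : ∀ σ N m, m ∈ Code.eval cd (Encodable.encode (σ, N)) ↔
      ∃ F, srchF A σ N σ.length = some F ∧ Encodable.encode F = m := by
    intro σ N m
    rw [hcd]
    simp
  have h1 : ∀ t σ N F, outn t (Encodable.encode cd) σ N = some F →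
      srchF A σ N σ.length = some F := by
    intro t σ N F ho
    unfold outn at ho
    rw [Denumerable.ofNat_encode, Option.bind_eq_some_iff] at ho
    obtain ⟨m, hm, hF⟩ := ho
    have hm' := (hev σ N m).1 (Code.evaln_sound hm)
    obtain ⟨G, hG, rfl⟩ := hm'
    rw [Encodable.encodek] at hF
    cases hF
    exact hG
  have h2 : ∀ σ N F, srchF A σ N σ.length = some F →
      ∃ t₀, ∀ t ≥ t₀, outn t (Encodable.encode cd) σ N = some F := by
    intro σ N F hF
    have hm := (hev σ N _).2 ⟨F, hF, rfl⟩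
    obtain ⟨t₀, ht₀⟩ := Code.evaln_complete.1 hm
    refine ⟨t₀, fun t ht => ?_⟩
    unfold outn
    rw [Denumerable.ofNat_encode, Option.mem_def.1 (Code.evaln_mono ht ht₀), Option.bind_some,
      Encodable.encodek]
  refine ⟨Encodable.encode cd, ⟨H, hc, ?_⟩, ?_⟩
  · intro n N t F hF
    have := (srchF_sound (h1 _ _ _ _ hF)).2
    rw [answers_eq] at this
    obtain ⟨a1, a2, a3, a4, a5, a6⟩ := this
    exact ⟨one_mem_chi.1 ((hA.spec _ _).2 ⟨n, a1⟩), one_mem_chi.1 ((hA.spec _ _).2 ⟨n, a2⟩),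
      one_mem_chi.1 ((hA.spec _ _).2 ⟨n, a3⟩), one_mem_chi.1 ((hA.spec _ _).2 ⟨n, a4⟩),
      one_mem_chi.1 ((hA.spec _ _).2 ⟨n, a5⟩), one_mem_chi.1 ((hA.spec _ _).2 ⟨n, a6⟩)⟩
  · intro N hN
    obtain ⟨F, hF, m1, m2, m3, m4, m5, m6⟩ := exists_okF hc.1 hN
    obtain ⟨n1, a1⟩ := (hA.spec _ _).1 (one_mem_chi.2 m1)
    obtain ⟨n2, a2⟩ := (hA.spec _ _).1 (one_mem_chi.2 m2)
    obtain ⟨n3, a3⟩ := (hA.spec _ _).1 (one_mem_chi.2 m3)
    obtain ⟨n4, a4⟩ := (hA.spec _ _).1 (one_mem_chi.2 m4)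
    obtain ⟨n5, a5⟩ := (hA.spec _ _).1 (one_mem_chi.2 m5)
    obtain ⟨n6, a6⟩ := (hA.spec _ _).1 (one_mem_chi.2 m6)
    refine ⟨n1 + n2 + n3 + n4 + n5 + n6 + Encodable.encode F + 1, fun n hn => ?_⟩
    have ht : testA A (pre X n) N (Encodable.encode F) = some F := by
      rw [testA_eq, answers_eq]
      exact ⟨Encodable.encodek F, hF, hA.mono _ _ _ _ (by omega) a1,
        hA.mono _ _ _ _ (by omega) a2, hA.mono _ _ _ _ (by omega) a3,
        hA.mono _ _ _ _ (by omega) a4, hA.mono _ _ _ _ (by omega) a5,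
        hA.mono _ _ _ _ (by omega) a6⟩
    obtain ⟨G, hG⟩ := srchF_complete ht (k := (pre X n).length) (by rw [pre_length]; omega)
    exact ⟨G, (srchF_sound hG).1, h2 _ _ _ hG⟩

end Pool.Agent.MPbdf372
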