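import Pool.Agent.MP_bdf372_lc.Rotation

set_option autoImplicit false

open Nat.Partrec (Code)

namespace Pool.Agent.MPbdf372

/-! ### The construction -/

/-- a layer: priority, block length, angle (two numbers), new modulus, strings taken care of -/
abbrev Rec : Type := ℕ × ℕ × ℕ × ℕ × ℕ × List (List Bool)

namespace Rec

/-- priority -/
def e (r : Rec) : ℕ := r.1
/-- block length -/
def N (r : Rec) : ℕ := r.2.1
/-- numerator of the angle -/
def a (r : Rec) : ℕ := r.2.2.1
/-- denominator of the angle -/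
def q (r : Rec) : ℕ := r.2.2.2.1
/-- new modulus -/
def M (r : Rec) : ℕ := r.2.2.2.2.1
/-- strings taken care of -/
def L (r : Rec) : List (List Bool) := r.2.2.2.2.2

end Rec

/-- the colouring given by a stack of layers -/
def col (S : List Rec) (x : ℕ) : Bool :=
  S.foldr (fun r b => xor (rot r.a r.q (x / r.N)) b) false

/-- the current modulus -/
def md (S : List Rec) : ℕ := (S.head?.map Rec.M).getD 1

/-- the part of the stack with priority at most `e` -/
def low (e : ℕ) (S : List Rec) : List Rec := S.filter (fun r => decide (r.e ≤ e))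

abbrev Six : Type := ℕ × ℕ × ℕ × ℕ × ℕ × ℕ

/-- conditions on six numbers -/
def OkF (N : ℕ) (F : Six) : Prop :=
  (F.2.1 % N = F.1 % N ∧ F.2.2.1 % N = F.1 % N ∧ F.2.2.2.1 % N = F.1 % N ∧
    F.2.2.2.2.1 % N = F.1 % N ∧ F.2.2.2.2.2 % N = F.1 % N) ∧
  F.1 + 2 * N ≤ F.2.1 ∧ F.1 + 8 * (F.2.1 - F.1) ≤ F.2.2.1 ∧ F.2.2.1 < F.2.2.2.1 ∧
  F.2.2.2.1 + 8 * (F.2.2.1 - F.1) ≤ F.2.2.2.2.1 ∧
  F.2.2.2.1 + 8 * (F.2.2.2.2.1 - F.2.2.2.1) ≤ F.2.2.2.2.2

/-- the normalised differences -/
def diffs (N : ℕ) (F : Six) : ℕ × ℕ × ℕ × ℕ :=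
  ((F.2.1 - F.1) / N, (F.2.2.1 - F.1) / N, (F.2.2.2.2.1 - F.2.2.2.1) / N,
    (F.2.2.2.2.2 - F.2.2.2.1) / N)

/-- all strings of a given length -/
def allStr : ℕ → List (List Bool)
  | 0 => [[]]
  | n + 1 => (allStr n).flatMap fun σ => [false :: σ, true :: σ]

/-- the output of the `e`-th functional within `t` steps -/
def outn (t e : ℕ) (σ : List Bool) (N : ℕ) : Option Six :=
  (Code.evaln t (Denumerable.ofNat Code e) (Encodable.encode (σ, N))).bind Encodable.decode

def FOk (t e N a q M : ℕ) (σ : List Bool) : Prop :=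
  ∃ F ∈ (outn t e σ N).toList, OkF N F ∧ Good2 a q (diffs N F) ∧ F.2.2.2.2.2 < M + F.1

/-- the string is not yet taken care of -/
def Fresh (e : ℕ) (S : List Rec) (σ : List Bool) : Prop :=
  ∀ r ∈ S, r.e = e → ∀ τ ∈ r.L, σ.take τ.length ≠ τ.take σ.length

/-- number of times the `e`-th requirement may act -/
def KK (e : ℕ) : ℕ := 12 ^ 4 * 2 ^ (e + 3)

open Classical in
noncomputable def killList (t e : ℕ) (S : List Rec) (l a q M : ℕ) : List (List Bool) :=
  (allStr l).filter fun σ => decide (Fresh e S σ ∧ FOk t e (md S) a q M σ)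

/-- the `e`-th requirement can act at stage `t` with parameters `l, a, q, M` -/
def Act (t e : ℕ) (S : List Rec) (l a q M : ℕ) : Prop :=
  (t % md S = 0 ∧ 0 < q ∧ 0 < M ∧ M % (md S * q) = 0) ∧
    2 ^ l ≤ KK e * (killList t e S l a q M).length

open Classical in
noncomputable def tryAct (t : ℕ) (S : List Rec) (e : ℕ) (w : ℕ × ℕ × ℕ × ℕ) :
    Option (List Rec) :=
  if Act t e (low e S) w.1 w.2.1 w.2.2.1 w.2.2.2 then
    some ((e, md (low e S), w.2.1, w.2.2.1, w.2.2.2,
      killList t e (low e S) w.1 w.2.1 w.2.2.1 w.2.2.2) :: low e S)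
  else none

noncomputable def tryV (t : ℕ) (S : List Rec) (v : ℕ) : Option (List Rec) :=
  tryAct t S (v / t) (Denumerable.ofNat (ℕ × ℕ × ℕ × ℕ) (v % t))

noncomputable def step (t : ℕ) (S : List Rec) : List Rec :=
  ((List.range (t * t)).filterMap (tryV t S)).head?.getD S

/-- the stack after stage `t` -/
noncomputable def stk : ℕ → List Rec
  | 0 => []
  | t + 1 => step (t + 1) (stk t)

/-- the colouring -/
noncomputable def theCol (x : ℕ) : Bool := col (stk x) x

/-! ### Computability -/

section prim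

variable {α : Type*} [Primcodable α]

theorem pr_forall_lt {n : α → ℕ} {p : ℕ → α → Prop} (hn : Primrec n)
    (hp : PrimrecPred fun z : ℕ × α => p z.1 z.2) : PrimrecPred fun x => ∀ m < n x, p m x :=
  ((PrimrecRel.forall_mem_list (R := p) hp).comp (Primrec.list_range.comp hn)
    Primrec.id).of_eq fun x => by simp

theorem pr_forall_mem {β : Type*} [Primcodable β] {l : α → List β} {p : β → α → Prop}
    (hl : Primrec l) (hp : PrimrecPred fun z : β × α => p z.1 z.2) :
    PrimrecPred fun x => ∀ m ∈ l x, p m x :=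
  (PrimrecRel.forall_mem_list (R := p) hp).comp hl Primrec.id

theorem pr_exists_mem {β : Type*} [Primcodable β] {l : α → List β} {p : β → α → Prop}
    (hl : Primrec l) (hp : PrimrecPred fun z : β × α => p z.1 z.2) :
    PrimrecPred fun x => ∃ m ∈ l x, p m x :=
  (PrimrecRel.exists_mem_list (R := p) hp).comp hl Primrec.id

theorem pr_imp {p q : α → Prop} (hp : PrimrecPred p) (hq : PrimrecPred q) :
    PrimrecPred fun x => p x → q x :=
  (hp.not.or hq).of_eq fun x => by tauto

theorem pr_rot {a q y : α → ℕ} (ha : Primrec a) (hq : Primrec q) (hy : Primrec y) :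
    Primrec fun x => rot (a x) (q x) (y x) := by
  unfold rot
  exact (Primrec.nat_le.comp hq (Primrec.nat_mul.comp (Primrec.const 2)
    (Primrec.nat_mod.comp (Primrec.nat_mul.comp ha hy) hq))).decide

theorem pr_good {a q d d' : α → ℕ} (ha : Primrec a) (hq : Primrec q) (hd : Primrec d)
    (hd' : Primrec d') : PrimrecPred fun x => Good (a x) (q x) (d x) (d' x) := by
  unfold Good
  apply pr_forall_lt hq
  have ha' := ha.comp (Primrec.snd (α := ℕ) (β := α))
  have hq' := hq.comp (Primrec.snd (α := ℕ) (β := α))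
  have hd1 := hd.comp (Primrec.snd (α := ℕ) (β := α))
  have hd2 := hd'.comp (Primrec.snd (α := ℕ) (β := α))
  exact ((Primrec.eq.comp (pr_rot ha' hq' Primrec.fst)
    (pr_rot ha' hq' (Primrec.nat_add.comp Primrec.fst hd1))).and
    (Primrec.eq.comp (pr_rot ha' hq' Primrec.fst)
    (pr_rot ha' hq' (Primrec.nat_add.comp Primrec.fst hd2)))).not

theorem pr_good2 {a q : α → ℕ} {d : α → ℕ × ℕ × ℕ × ℕ} (ha : Primrec a) (hq : Primrec q)
    (hd : Primrec d) : PrimrecPred fun x => Good2 (a x) (q x) (d x) := by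
  unfold Good2
  exact (pr_good ha hq (Primrec.fst.comp hd) (Primrec.fst.comp (Primrec.snd.comp hd))).and
    (pr_good ha hq (Primrec.fst.comp (Primrec.snd.comp (Primrec.snd.comp hd)))
      (Primrec.snd.comp (Primrec.snd.comp (Primrec.snd.comp hd))))

section recs

variable {r : α → Rec} (hr : Primrec r)

include hr

theorem pr_e : Primrec fun x => (r x).e := Primrec.fst.comp hr
theorem pr_N : Primrec fun x => (r x).N := Primrec.fst.comp (Primrec.snd.comp hr)
theorem pr_a : Primrec fun x => (r x).a :=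
  Primrec.fst.comp (Primrec.snd.comp (Primrec.snd.comp hr))
theorem pr_q : Primrec fun x => (r x).q :=
  Primrec.fst.comp (Primrec.snd.comp (Primrec.snd.comp (Primrec.snd.comp hr)))
theorem pr_M : Primrec fun x => (r x).M :=
  Primrec.fst.comp (Primrec.snd.comp (Primrec.snd.comp (Primrec.snd.comp (Primrec.snd.comp hr))))
theorem pr_L : Primrec fun x => (r x).L :=
  Primrec.snd.comp (Primrec.snd.comp (Primrec.snd.comp (Primrec.snd.comp (Primrec.snd.comp hr))))

end recs

theorem pr_col {S : α → List Rec} {y : α → ℕ} (hS : Primrec S) (hy : Primrec y) :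
    Primrec fun x => col (S x) (y x) := by
  unfold col
  have h : Primrec₂ fun (x : α) (p : Rec × Bool) =>
      xor (rot p.1.a p.1.q (y x / p.1.N)) p.2 := by
    have hr : Primrec fun z : α × Rec × Bool => z.2.1 := Primrec.fst.comp Primrec.snd
    have hb : Primrec fun z : α × Rec × Bool => z.2.2 := Primrec.snd.comp Primrec.snd
    exact (Primrec.dom_bool₂ xor).comp (pr_rot (pr_a hr) (pr_q hr)
      (Primrec.nat_div.comp (hy.comp Primrec.fst) (pr_N hr))) hb
  exact Primrec.list_foldr hS (Primrec.const false) h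

theorem pr_md {S : α → List Rec} (hS : Primrec S) : Primrec fun x => md (S x) := by
  unfold md
  exact Primrec.option_getD.comp (Primrec.option_map (Primrec.list_head?.comp hS)
    (pr_M Primrec.snd)) (Primrec.const 1)

theorem pr_low {e : α → ℕ} {S : α → List Rec} (he : Primrec e) (hS : Primrec S) :
    Primrec fun x => low (e x) (S x) := by
  unfold low
  have h : PrimrecRel fun (r : Rec) (e : ℕ) => r.e ≤ e :=
    Primrec.nat_le.comp (pr_e Primrec.fst) Primrec.snd
  exact h.listFilter.comp hS he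

section six

variable {F : α → Six} (hF : Primrec F)

include hF

theorem pr_1 : Primrec fun x => (F x).1 := Primrec.fst.comp hF
theorem pr_2 : Primrec fun x => (F x).2.1 := Primrec.fst.comp (Primrec.snd.comp hF)
theorem pr_3 : Primrec fun x => (F x).2.2.1 :=
  Primrec.fst.comp (Primrec.snd.comp (Primrec.snd.comp hF))
theorem pr_4 : Primrec fun x => (F x).2.2.2.1 :=
  Primrec.fst.comp (Primrec.snd.comp (Primrec.snd.comp (Primrec.snd.comp hF)))
theorem pr_5 : Primrec fun x => (F x).2.2.2.2.1 :=
  Primrec.fst.comp (Primrec.snd.comp (Primrec.snd.comp (Primrec.snd.comp (Primrec.snd.comp hF))))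
theorem pr_6 : Primrec fun x => (F x).2.2.2.2.2 :=
  Primrec.snd.comp (Primrec.snd.comp (Primrec.snd.comp (Primrec.snd.comp (Primrec.snd.comp hF))))

theorem pr_okF {N : α → ℕ} (hN : Primrec N) : PrimrecPred fun x => OkF (N x) (F x) := by
  unfold OkF
  have m : ∀ {f g : α → ℕ}, Primrec f → Primrec g → PrimrecPred fun x =>
      f x % N x = g x % N x := fun hf hg =>
    Primrec.eq.comp (Primrec.nat_mod.comp hf hN) (Primrec.nat_mod.comp hg hN)
  have g8 : ∀ {f g h k : α → ℕ}, Primrec f → Primrec g → Primrec h → Primrec k →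
      PrimrecPred fun x => f x + 8 * (g x - h x) ≤ k x := fun hf hg hh hk =>
    Primrec.nat_le.comp (Primrec.nat_add.comp hf (Primrec.nat_mul.comp (Primrec.const 8)
      (Primrec.nat_sub.comp hg hh))) hk
  refine ((m (pr_2 hF) (pr_1 hF)).and ((m (pr_3 hF) (pr_1 hF)).and ((m (pr_4 hF) (pr_1 hF)).and
    ((m (pr_5 hF) (pr_1 hF)).and (m (pr_6 hF) (pr_1 hF)))))).and ?_
  refine (Primrec.nat_le.comp (Primrec.nat_add.comp (pr_1 hF) (Primrec.nat_mul.comp
    (Primrec.const 2) hN)) (pr_2 hF)).and ?_
  exact (g8 (pr_1 hF) (pr_2 hF) (pr_1 hF) (pr_3 hF)).and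
    ((Primrec.nat_lt.comp (pr_3 hF) (pr_4 hF)).and
    ((g8 (pr_4 hF) (pr_3 hF) (pr_1 hF) (pr_5 hF)).and (g8 (pr_4 hF) (pr_5 hF) (pr_4 hF)
      (pr_6 hF))))

theorem pr_diffs {N : α → ℕ} (hN : Primrec N) : Primrec fun x => diffs (N x) (F x) := by
  unfold diffs
  have m : ∀ {f g : α → ℕ}, Primrec f → Primrec g → Primrec fun x => (f x - g x) / N x :=
    fun hf hg => Primrec.nat_div.comp (Primrec.nat_sub.comp hf hg) hN
  exact (m (pr_2 hF) (pr_1 hF)).pair ((m (pr_3 hF) (pr_1 hF)).pair
    ((m (pr_5 hF) (pr_4 hF)).pair (m (pr_6 hF) (pr_4 hF))))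

end six

theorem pr_allStr : Primrec allStr := by
  have h : Primrec (fun n : ℕ => (Nat.rec [[]] (fun _ l => l.flatMap fun σ =>
      [false :: σ, true :: σ]) n : List (List Bool))) := by
    refine Primrec.nat_rec₁ [[]] ?_
    refine Primrec.list_flatMap Primrec.snd ?_
    have h1 : ∀ b : Bool, Primrec₂ fun (_ : ℕ × List (List Bool)) (σ : List Bool) => b :: σ :=
      fun b => Primrec.list_cons.comp (Primrec.const b) Primrec.snd
    exact Primrec.list_cons.comp (h1 false) (Primrec.list_cons.comp (h1 true) (Primrec.const []))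
  refine h.of_eq fun n => ?_
  induction n with
  | zero => rfl
  | succ n ih =>
    simp only at ih ⊢
    rw [ih]
    rfl

theorem pr_outn {t e N : α → ℕ} {σ : α → List Bool} (ht : Primrec t) (he : Primrec e)
    (hσ : Primrec σ) (hN : Primrec N) : Primrec fun x => outn (t x) (e x) (σ x) (N x) := by
  unfold outn
  refine Primrec.option_bind ?_ (Primrec.decode.comp Primrec.snd)
  exact Code.primrec_evaln.comp ((ht.pair ((Primrec.ofNat Code).comp he)).pair
    (Primrec.encode.comp (hσ.pair hN)))

theorem pr_FOk {t e N a q M : α → ℕ} {σ : α → List Bool} (ht : Primrec t) (he : Primrec e)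
    (hN : Primrec N) (ha : Primrec a) (hq : Primrec q) (hM : Primrec M) (hσ : Primrec σ) :
    PrimrecPred fun x => FOk (t x) (e x) (N x) (a x) (q x) (M x) (σ x) := by
  unfold FOk
  apply pr_exists_mem (Primrec.optionToList.comp (pr_outn ht he hσ hN))
  have s : Primrec (Prod.snd : Six × α → α) := Primrec.snd
  have f : Primrec (Prod.fst : Six × α → Six) := Primrec.fst
  exact (pr_okF f (hN.comp s)).and ((pr_good2 (ha.comp s) (hq.comp s)
    (pr_diffs f (hN.comp s))).and (Primrec.nat_lt.comp (pr_6 f)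
    (Primrec.nat_add.comp (hM.comp s) (pr_1 f))))

theorem pr_fresh {e : α → ℕ} {S : α → List Rec} {σ : α → List Bool} (he : Primrec e)
    (hS : Primrec S) (hσ : Primrec σ) : PrimrecPred fun x => Fresh (e x) (S x) (σ x) := by
  unfold Fresh
  apply pr_forall_mem hS
  have s : Primrec (Prod.snd : Rec × α → α) := Primrec.snd
  have f : Primrec (Prod.fst : Rec × α → Rec) := Primrec.fst
  refine pr_imp (Primrec.eq.comp (pr_e f) (he.comp s)) ?_
  apply pr_forall_mem (pr_L f)
  have s' : Primrec (fun z : List Bool × Rec × α => z.2.2) := Primrec.snd.comp Primrec.snd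
  have f' : Primrec (fun z : List Bool × Rec × α => z.1) := Primrec.fst
  exact (Primrec.eq.comp
    (Primrec.list_take.comp (Primrec.list_length.comp f') (hσ.comp s'))
    (Primrec.list_take.comp (Primrec.list_length.comp (hσ.comp s')) f')).not

theorem pr_killList {t e l a q M : α → ℕ} {S : α → List Rec} (ht : Primrec t) (he : Primrec e)
    (hS : Primrec S) (hl : Primrec l) (ha : Primrec a) (hq : Primrec q) (hM : Primrec M) :
    Primrec fun x => killList (t x) (e x) (S x) (l x) (a x) (q x) (M x) := by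
  classical
  unfold killList
  have h : PrimrecRel fun (σ : List Bool) (x : α) =>
      Fresh (e x) (S x) σ ∧ FOk (t x) (e x) (md (S x)) (a x) (q x) (M x) σ := by
    have s : Primrec (Prod.snd : List Bool × α → α) := Primrec.snd
    have f : Primrec (Prod.fst : List Bool × α → List Bool) := Primrec.fst
    exact (pr_fresh (he.comp s) (hS.comp s) f).and (pr_FOk (ht.comp s) (he.comp s)
      (pr_md (hS.comp s)) (ha.comp s) (hq.comp s) (hM.comp s) f)
  exact (h.listFilter.comp (pr_allStr.comp hl) Primrec.id).of_eq fun x => by congr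

theorem pr_pow : Primrec₂ ((· ^ ·) : ℕ → ℕ → ℕ) := Primrec₂.unpaired'.1 Nat.Primrec.pow

theorem pr_act {t e l a q M : α → ℕ} {S : α → List Rec} (ht : Primrec t) (he : Primrec e)
    (hS : Primrec S) (hl : Primrec l) (ha : Primrec a) (hq : Primrec q) (hM : Primrec M) :
    PrimrecPred fun x => Act (t x) (e x) (S x) (l x) (a x) (q x) (M x) := by
  unfold Act KK
  refine ((Primrec.eq.comp (Primrec.nat_mod.comp ht (pr_md hS)) (Primrec.const 0)).and
    ((Primrec.nat_lt.comp (Primrec.const 0) hq).and ((Primrec.nat_lt.comp (Primrec.const 0) hM).and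
    (Primrec.eq.comp (Primrec.nat_mod.comp hM (Primrec.nat_mul.comp (pr_md hS) hq))
      (Primrec.const 0))))).and ?_
  exact Primrec.nat_le.comp (pr_pow.comp (Primrec.const 2) hl)
    (Primrec.nat_mul.comp (Primrec.nat_mul.comp (Primrec.const (12 ^ 4))
      (pr_pow.comp (Primrec.const 2) (Primrec.nat_add.comp he (Primrec.const 3))))
      (Primrec.list_length.comp (pr_killList ht he hS hl ha hq hM)))

theorem pr_tryAct {t e : α → ℕ} {S : α → List Rec} {w : α → ℕ × ℕ × ℕ × ℕ} (ht : Primrec t)
    (he : Primrec e) (hS : Primrec S) (hw : Primrec w) :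
    Primrec fun x => tryAct (t x) (S x) (e x) (w x) := by
  classical
  unfold tryAct
  have w1 := Primrec.fst.comp hw
  have w2 := Primrec.fst.comp (Primrec.snd.comp hw)
  have w3 := Primrec.fst.comp (Primrec.snd.comp (Primrec.snd.comp hw))
  have w4 := Primrec.snd.comp (Primrec.snd.comp (Primrec.snd.comp hw))
  have hl := pr_low he hS
  refine (Primrec.ite (pr_act ht he hl w1 w2 w3 w4) (Primrec.option_some.comp
    (Primrec.list_cons.comp (he.pair ((pr_md hl).pair (w2.pair (w3.pair (w4.pair
      (pr_killList ht he hl w1 w2 w3 w4)))))) hl)) (Primrec.const none)).of_eq fun x => ?_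
  congr

theorem pr_step : Primrec₂ step := by
  unfold step
  have t : Primrec (Prod.fst : ℕ × List Rec → ℕ) := Primrec.fst
  have S : Primrec (Prod.snd : ℕ × List Rec → List Rec) := Primrec.snd
  refine Primrec.option_getD.comp (Primrec.list_head?.comp ?_) S
  refine Primrec.listFilterMap (Primrec.list_range.comp (Primrec.nat_mul.comp t t)) ?_
  unfold tryV
  have t' : Primrec (fun z : (ℕ × List Rec) × ℕ => z.1.1) := Primrec.fst.comp Primrec.fst
  have S' : Primrec (fun z : (ℕ × List Rec) × ℕ => z.1.2) := Primrec.snd.comp Primrec.fst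
  have v : Primrec (fun z : (ℕ × List Rec) × ℕ => z.2) := Primrec.snd
  exact pr_tryAct t' (Primrec.nat_div.comp v t') S'
    ((Primrec.ofNat (ℕ × ℕ × ℕ × ℕ)).comp (Primrec.nat_mod.comp v t'))

theorem pr_stk : Primrec stk := by
  have h : Primrec (fun n : ℕ => (Nat.rec [] (fun k S => step (k + 1) S) n : List Rec)) := by
    refine Primrec.nat_rec₁ [] ?_
    exact pr_step.comp (Primrec.succ.comp Primrec.fst) Primrec.snd
  refine h.of_eq fun n => ?_
  induction n with
  | zero => rfl
  | succ n ih =>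
    simp only at ih ⊢
    rw [ih]
    rfl

theorem computable_theCol : Computable theCol :=
  (pr_col pr_stk Primrec.id).to_comp

end prim

end Pool.Agent.MPbdf372
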