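import Pool.Agent.MP_bdf372_lc.Coin

set_option autoImplicit false

open Nat.Partrec (Code)

namespace Pool.Agent.MPbdf372

/-! ### Invariants of the stack -/

/-- the invariants of one layer above a stack -/
structure LayerOk (r : Rec) (S : List Rec) : Prop where
  hN : r.N = md S
  hq : 0 < r.q
  hM : 0 < r.M
  hdvd : r.N * r.q ∣ r.M
  he : ∀ r' ∈ S, r'.e ≤ r.e
  nodup : r.L.Nodup
  big : ∃ l, (∀ σ ∈ r.L, σ.length = l) ∧ 2 ^ l ≤ KK r.e * r.L.length
  fresh : ∀ σ ∈ r.L, Fresh r.e S σ
  ok : ∃ t, ∀ σ ∈ r.L, FOk t r.e r.N r.a r.q r.M σ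

/-- the invariants of the stack -/
def Inv : List Rec → Prop
  | [] => True
  | r :: S => LayerOk r S ∧ Inv S

theorem Inv.suffix {T S : List Rec} (h : Inv (T ++ S)) : Inv S := by
  induction T with
  | nil => exact h
  | cons r T ih => exact ih h.2

theorem low_cons {e : ℕ} {r : Rec} {S : List Rec} :
    low e (r :: S) = if r.e ≤ e then r :: low e S else low e S := by
  unfold low
  rw [List.filter_cons]
  simp

theorem low_eq_self {e : ℕ} {S : List Rec} (h : ∀ r ∈ S, r.e ≤ e) : low e S = S := by
  unfold low
  rw [List.filter_eq_self]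
  simpa using h

theorem low_suffix {e : ℕ} {S : List Rec} (h : Inv S) : ∃ T, S = T ++ low e S := by
  induction S with
  | nil => exact ⟨[], rfl⟩
  | cons r S ih =>
    rw [low_cons]
    split_ifs with he
    · refine ⟨[], ?_⟩
      rw [low_eq_self (fun r' hr' => (h.1.he r' hr').trans he), List.nil_append]
    · obtain ⟨T, hT⟩ := ih h.2
      exact ⟨r :: T, by rw [List.cons_append, ← hT]⟩

theorem Inv.low {e : ℕ} {S : List Rec} (h : Inv S) : Inv (low e S) := by
  obtain ⟨T, hT⟩ := low_suffix (e := e) h
  rw [hT] at h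
  exact h.suffix

theorem low_low {e e' : ℕ} (h : e ≤ e') (S : List Rec) : low e (low e' S) = low e S := by
  unfold low
  rw [List.filter_filter]
  congr 1
  funext r
  rw [Bool.eq_iff_iff]
  simp only [Bool.and_eq_true, decide_eq_true_eq]
  constructor
  · exact fun h => h.1
  · exact fun h' => ⟨h', h'.trans h⟩

theorem mem_low {e : ℕ} {S : List Rec} {r : Rec} : r ∈ low e S ↔ r ∈ S ∧ r.e ≤ e := by
  unfold low
  simp

theorem md_cons (r : Rec) (S : List Rec) : md (r :: S) = r.M := rfl

theorem Inv.md_pos {S : List Rec} (h : Inv S) : 0 < md S := by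
  cases S with
  | nil => exact Nat.one_pos
  | cons r S => exact h.1.hM

theorem Inv.md_dvd {T S : List Rec} (h : Inv (T ++ S)) : md S ∣ md (T ++ S) := by
  induction T with
  | nil => exact dvd_refl _
  | cons r T ih =>
    rw [List.cons_append, md_cons]
    refine (ih h.2).trans ?_
    have e1 : r.N = md (T ++ S) := h.1.hN
    rw [← e1]
    exact (Dvd.intro _ rfl).trans h.1.hdvd

/-- the new layer -/
noncomputable def newRec (t e : ℕ) (S : List Rec) (l a q M : ℕ) : Rec :=
  (e, md S, a, q, M, killList t e S l a q M)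

theorem layerOk_new {t e : ℕ} {S : List Rec} {l a q M : ℕ} (h : Act t e S l a q M)
    (hS : ∀ r ∈ S, r.e ≤ e) : LayerOk (newRec t e S l a q M) S := by
  obtain ⟨⟨h1, h2, h3, h4⟩, h5⟩ := h
  have hmem : ∀ σ ∈ (newRec t e S l a q M).L, σ.length = l ∧ Fresh e S σ ∧
      FOk t e (md S) a q M σ := by
    intro σ hσ
    have hσ' : σ ∈ killList t e S l a q M := hσ
    unfold killList at hσ'
    rw [List.mem_filter, mem_allStr] at hσ'
    simpa using hσ'
  exact {
    hN := rfl
    hq := h2
    hM := h3
    hdvd := Nat.dvd_of_mod_eq_zero h4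
    he := hS
    nodup := (allStr_nodup l).filter _
    big := ⟨l, fun σ hσ => (hmem σ hσ).1, h5⟩
    fresh := fun σ hσ => (hmem σ hσ).2.1
    ok := ⟨t, fun σ hσ => (hmem σ hσ).2.2⟩ }

/-- the `e`-th requirement acts, and this changes the stack `S` into `S'` at stage `t` -/
def Acts (t e : ℕ) (S S' : List Rec) : Prop :=
  ∃ l a q M, Act t e (low e S) l a q M ∧ S' = newRec t e (low e S) l a q M :: low e S

theorem Acts.inv {t e : ℕ} {S S' : List Rec} (h : Acts t e S S') (hS : Inv S) : Inv S' := by
  obtain ⟨l, a, q, M, h1, rfl⟩ := h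
  exact ⟨layerOk_new h1 (fun r hr => (mem_low.1 hr).2), hS.low⟩

theorem head_filterMap_range {α : Type*} (f : ℕ → Option α) (n : ℕ) :
    (((List.range n).filterMap f).head? = none ∧ ∀ v < n, f v = none) ∨
      ∃ v < n, ∃ a, f v = some a ∧ (∀ u < v, f u = none) ∧
        ((List.range n).filterMap f).head? = some a := by
  induction n with
  | zero => simp
  | succ n ih =>
    rw [List.range_succ, List.filterMap_append, List.head?_append]
    rcases ih with ⟨h1, h2⟩ | ⟨v, hv, a, h1, h2, h3⟩
    · rw [h1, Option.none_or]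
      cases hf : f n with
      | none =>
        left
        refine ⟨by simp [hf], fun v hv => ?_⟩
        rcases Nat.lt_succ_iff_lt_or_eq.1 hv with h | rfl
        · exact h2 v h
        · exact hf
      | some a =>
        right
        exact ⟨n, Nat.lt_succ_self n, a, hf, h2, by simp [hf]⟩
    · right
      exact ⟨v, Nat.lt_succ_of_lt hv, a, h1, h2, by rw [h3, Option.some_or]⟩

theorem tryV_some {t : ℕ} {S S' : List Rec} {v : ℕ} (h : tryV t S v = some S') :
    Acts t (v / t) S S' := by
  unfold tryV tryAct at h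
  split_ifs at h with hc
  exact ⟨_, _, _, _, hc, (Option.some.inj h).symm⟩

theorem step_cases (t : ℕ) (S : List Rec) : step t S = S ∨ ∃ e, Acts t e S (step t S) := by
  unfold step
  rcases head_filterMap_range (tryV t S) (t * t) with ⟨h1, _⟩ | ⟨v, _, a, h1, _, h3⟩
  · left
    rw [h1]
    rfl
  · right
    rw [h3]
    exact ⟨v / t, tryV_some h1⟩

theorem step_acts {t : ℕ} {S : List Rec} {e l a q M : ℕ} (he : e < t)
    (hw : Encodable.encode (l, a, q, M) < t) (h : Act t e (low e S) l a q M) :
    ∃ e' ≤ e, Acts t e' S (step t S) := by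
  have ht : 0 < t := by omega
  have hv : e * t + Encodable.encode (l, a, q, M) < t * t := by
    calc e * t + Encodable.encode (l, a, q, M) < e * t + t := by omega
      _ = (e + 1) * t := by ring
      _ ≤ t * t := Nat.mul_le_mul_right t he
  have hd : (e * t + Encodable.encode (l, a, q, M)) / t = e := by
    rw [mul_comm, Nat.mul_add_div ht, Nat.div_eq_of_lt hw, add_zero]
  have hm : (e * t + Encodable.encode (l, a, q, M)) % t = Encodable.encode (l, a, q, M) := by
    rw [mul_comm, Nat.mul_add_mod, Nat.mod_eq_of_lt hw]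
  have htry : tryV t S (e * t + Encodable.encode (l, a, q, M)) ≠ none := by
    unfold tryV tryAct
    rw [hd, hm, Denumerable.ofNat_encode]
    simp only
    rw [if_pos h]
    simp
  unfold step
  rcases head_filterMap_range (tryV t S) (t * t) with ⟨_, h2⟩ | ⟨v, hv', a', h1, h2, h3⟩
  · exact absurd (h2 _ hv) htry
  · rw [h3]
    refine ⟨v / t, ?_, tryV_some h1⟩
    rw [← hd]
    apply Nat.div_le_div_right
    by_contra hcon
    push Not at hcon
    exact htry (h2 _ hcon)

theorem inv_stk (t : ℕ) : Inv (stk t) := by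
  induction t with
  | zero => trivial
  | succ t ih =>
    rw [stk]
    rcases step_cases (t + 1) (stk t) with h | ⟨e, h⟩
    · rw [h]
      exact ih
    · exact h.inv ih

/-! ### The colouring -/

theorem col_cons (r : Rec) (S : List Rec) (x : ℕ) :
    col (r :: S) x = xor (rot r.a r.q (x / r.N)) (col S x) := rfl

theorem col_append (T S : List Rec) (x : ℕ) : col (T ++ S) x = xor (col T x) (col S x) := by
  induction T with
  | nil => simp [col]
  | cons r T ih => rw [List.cons_append, col_cons, col_cons, ih, Bool.xor_assoc]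

theorem col_block {T S : List Rec} (h : Inv (T ++ S)) {x y : ℕ} (hxy : x / md S = y / md S) :
    col T x = col T y := by
  induction T with
  | nil => rfl
  | cons r T ih =>
    rw [col_cons, col_cons, ih h.2]
    obtain ⟨k, hk⟩ : md S ∣ r.N := by
      rw [h.1.hN]
      exact Inv.md_dvd h.2
    rw [hk, ← Nat.div_div_eq_div_mul, ← Nat.div_div_eq_div_mul, hxy]

theorem col_period {S : List Rec} (h : Inv S) (x k : ℕ) : col S (x + md S * k) = col S x := by
  induction S generalizing k with
  | nil => rfl
  | cons r S ih =>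
    obtain ⟨j, hj⟩ := h.1.hdvd
    have hN : 0 < r.N := by
      rw [h.1.hN]
      exact h.2.md_pos
    rw [col_cons, col_cons, md_cons, hj]
    have e1 : x + r.N * r.q * j * k = x + md S * (r.q * j * k) := by
      rw [← h.1.hN]
      ring
    have e2 : (x + r.N * r.q * j * k) / r.N = x / r.N + r.q * (j * k) := by
      rw [show r.N * r.q * j * k = r.N * (r.q * (j * k)) by ring, Nat.add_mul_div_left _ _ hN]
    rw [e2, rot_add_period, e1, ih h.2]

theorem col_mod {S : List Rec} (h : Inv S) {x y : ℕ} (hxy : x % md S = y % md S) :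
    col S x = col S y := by
  rw [← Nat.mod_add_div x (md S), ← Nat.mod_add_div y (md S), col_period h, col_period h, hxy]

/-! ### Permanent layers -/

theorem stk_const {s : ℕ} {R : List Rec} {e : ℕ}
    (hR : ∀ t ≥ s, low e (stk t) = R) (hno : ∀ t ≥ s, ∀ e' ≤ e, ¬ Acts (t + 1) e' (stk t)
      (stk (t + 1))) {x y : ℕ} (hx : s ≤ x) (hxy : x ≤ y) (hb : x / md R = y / md R) :
    stk x = stk y := by
  induction y with
  | zero =>
    have : x = 0 := by omega
    rw [this]
  | succ y ih =>
    rcases Nat.lt_or_ge y x with h | h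
    · have : x = y + 1 := by omega
      rw [this]
    have h1 : x / md R ≤ y / md R := Nat.div_le_div_right h
    have h2 : y / md R ≤ (y + 1) / md R := Nat.div_le_div_right (Nat.le_succ y)
    have h3 : y / md R = (y + 1) / md R := by omega
    rw [ih h (by omega)]
    rcases step_cases (y + 1) (stk y) with h' | ⟨e', h'⟩
    · rw [stk, h']
    · exfalso
      have he' : e < e' := by
        by_contra hcon
        exact hno y (by omega) e' (by omega) h'
      obtain ⟨l, a, q, M, hact, _⟩ := h'
      have hinv := (inv_stk y).low (e := e')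
      obtain ⟨T, hT⟩ := low_suffix (e := e) hinv
      rw [low_low he'.le, hR y (by omega)] at hT
      rw [hT] at hinv
      have hd : md R ∣ md (low e' (stk y)) := by
        rw [hT]
        exact hinv.md_dvd
      have hmod : (y + 1) % md (low e' (stk y)) = 0 := hact.1.1
      have hd2 : md R ∣ y + 1 := hd.trans (Nat.dvd_of_mod_eq_zero hmod)
      obtain ⟨k, hk⟩ := hd2
      have hpos : 0 < md R := hinv.suffix.md_pos
      rw [hk, Nat.mul_div_cancel_left _ hpos] at h3
      have : y < md R * k := by omega
      have h4 : y / md R < k := Nat.div_lt_of_lt_mul this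
      omega

end Pool.Agent.MPbdf372
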